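import Mathlib

/-!
# NP, polynomial-time many-one reductions, NP-hardness

All notions are based on Mathlib's `Turing.TM2ComputableInPolyTime` (Turing machines with several
stacks, deciding resp. computing within a polynomial number of steps).

* `Word`: words over `{0, 1}`
* `InNP L`: there is a polynomial `q` and a relation `R`, decidable in polynomial time, with
  `x ∈ L ↔ ∃ y, |y| ≤ q (|x|) ∧ R x y`. The pair `(x, y)` is presented to the machine as the word
  `x # y`.
* `PolyReduces L L'`: polynomial-time many-one reduction.
* `NPHard L'`, `NPComplete L'`.
-/

set_option autoImplicit false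

namespace Pool.Agent.Lib.CookLevin

open Turing

/-- words over the alphabet `{0, 1}` -/
abbrev Word : Type := List Bool

/-- the pair `(x, y)` is written `x # y`, where `#` is `none` -/
def pairEnc (p : Word × Word) : List (Option Bool) := p.1.map some ++ none :: p.2.map some

/-- the class NP, by polynomial-time verifiers -/
def InNP (L : Word → Prop) : Prop :=
  ∃ (q : Polynomial ℕ) (R : Word × Word → Bool),
    Nonempty (TM2ComputableInPolyTime pairEnc Computability.encodeBool R) ∧
    ∀ x, L x ↔ ∃ y : Word, y.length ≤ q.eval x.length ∧ R (x, y) = true

/-- polynomial-time many-one reducibility -/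
def PolyReduces (L L' : Word → Prop) : Prop :=
  ∃ f : Word → Word, Nonempty (TM2ComputableInPolyTime (id : Word → List Bool)
    (id : Word → List Bool) f) ∧ ∀ x, L x ↔ L' (f x)

/-- every language in NP reduces to `L'` -/
def NPHard (L' : Word → Prop) : Prop := ∀ L : Word → Prop, InNP L → PolyReduces L L'

/-- `L'` is in NP and NP-hard -/
def NPComplete (L' : Word → Prop) : Prop := InNP L' ∧ NPHard L'

end Pool.Agent.Lib.CookLevin
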