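import Mathlib

/-!
# Combinatorial planarity

A finite simple graph is planar iff it has a rotation system of genus zero (Heffter, Edmonds).
`RotationSystem G` gives at each vertex a cyclic order of the darts leaving it.  The faces are the
orbits of `d ↦ rot d.symm`.  A rotation system describes an embedding of each connected component
into an orientable closed surface; an isolated vertex has one face, which is not seen by the darts.
All these surfaces are spheres iff `V - E + F = 2 c`, `c` the number of connected components.
-/

namespace Pool.Agent.Lib.CookLevin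

open Equiv.Perm SimpleGraph

variable {V : Type*}

/-- A rotation system: a permutation of the darts whose orbits are exactly the sets of darts
leaving a given vertex. -/
structure RotationSystem (G : SimpleGraph V) where
  /-- the next dart around the initial vertex -/
  rot : Equiv.Perm G.Dart
  rot_fst : ∀ d, (rot d).fst = d.fst
  rot_trans : ∀ d d' : G.Dart, d.fst = d'.fst → rot.SameCycle d d'

/-- The reversal of darts, as a permutation. -/
def dartSymm (G : SimpleGraph V) : Equiv.Perm G.Dart :=
  Function.Involutive.toPerm _ (Dart.symm_involutive (G := G))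

/-- The face permutation: from the dart `u → v` go to the next dart, around `v`, after `v → u`. -/
def RotationSystem.face {G : SimpleGraph V} (R : RotationSystem G) : Equiv.Perm G.Dart :=
  (dartSymm G).trans R.rot

/-- The number of orbits of the face permutation. -/
noncomputable def RotationSystem.numFaces {G : SimpleGraph V} (R : RotationSystem G) : ℕ :=
  Nat.card (Quotient (SameCycle.setoid R.face))

/-- Genus zero: `V - E + F = 2 c` with `F` the number of face orbits plus the number of isolated
vertices and `c` the number of connected components. -/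
def IsPlanar (G : SimpleGraph V) : Prop :=
  ∃ R : RotationSystem G,
    Nat.card V + (R.numFaces + Nat.card {v : V // ∀ w, ¬ G.Adj v w}) =
      Nat.card G.edgeSet + 2 * Nat.card G.ConnectedComponent

/-- Maximal planar: planar, and adding any edge destroys planarity. -/
def MaximalPlanar (G : SimpleGraph V) : Prop :=
  IsPlanar G ∧ ∀ u v, u ≠ v → ¬ G.Adj u v → ¬ IsPlanar (G ⊔ edge u v)

/-! ### Counting cycles of a permutation -/

lemma three_mul_card_le {X : Type*} [Finite X] (f : Equiv.Perm X) (h1 : ∀ x, f x ≠ x)
    (h2 : ∀ x, f (f x) ≠ x) :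
    3 * Nat.card (Quotient (SameCycle.setoid f)) ≤ Nat.card X := by
  classical
  have := Fintype.ofFinite X
  rw [Nat.card_eq_fintype_card, Nat.card_eq_fintype_card]
  have hfib : Fintype.card X =
      ∑ q : Quotient (SameCycle.setoid f), (Finset.univ.filter fun x : X =>
        (Quotient.mk (SameCycle.setoid f) x) = q).card := by
    rw [← Finset.card_univ]
    exact Finset.card_eq_sum_card_fiberwise (fun x _ => Finset.mem_univ _)
  rw [hfib]
  have : 3 * Fintype.card (Quotient (SameCycle.setoid f)) =
      ∑ q : Quotient (SameCycle.setoid f), 3 := by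
    simp [mul_comm]
  rw [this]
  refine Finset.sum_le_sum fun q _ => ?_
  obtain ⟨x, rfl⟩ := Quotient.exists_rep q
  have hsub : ({x, f x, f (f x)} : Finset X) ⊆ (Finset.univ.filter fun y : X =>
        (Quotient.mk (SameCycle.setoid f) y) = Quotient.mk (SameCycle.setoid f) x) := by
    intro y hy
    simp only [Finset.mem_insert, Finset.mem_singleton] at hy
    simp only [Finset.mem_filter, Finset.mem_univ, true_and]
    refine Quotient.sound ?_
    change f.SameCycle y x
    rcases hy with rfl | rfl | rfl
    · exact SameCycle.refl _ _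
    · simp [SameCycle.refl]
    · simp [SameCycle.refl]
  have hcard : ({x, f x, f (f x)} : Finset X).card = 3 := by
    refine Finset.card_eq_three.2 ⟨x, f x, f (f x), (h1 x).symm, (h2 x).symm, (h1 (f x)).symm, rfl⟩
  rw [← hcard]
  exact Finset.card_le_card hsub

lemma three_mul_card_eq {X : Type*} [Finite X] (f : Equiv.Perm X) (h1 : ∀ x, f x ≠ x)
    (h3 : ∀ x, f (f (f x)) = x) :
    3 * Nat.card (Quotient (SameCycle.setoid f)) = Nat.card X := by
  classical
  have := Fintype.ofFinite X
  have h2 : ∀ x, f (f x) ≠ x := by
    intro x h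
    have := h3 x
    rw [h] at this
    exact h1 x this
  rw [Nat.card_eq_fintype_card, Nat.card_eq_fintype_card]
  have hfib : Fintype.card X =
      ∑ q : Quotient (SameCycle.setoid f), (Finset.univ.filter fun x : X =>
        (Quotient.mk (SameCycle.setoid f) x) = q).card := by
    rw [← Finset.card_univ]
    exact Finset.card_eq_sum_card_fiberwise (fun x _ => Finset.mem_univ _)
  rw [hfib]
  have : 3 * Fintype.card (Quotient (SameCycle.setoid f)) =
      ∑ q : Quotient (SameCycle.setoid f), 3 := by
    simp [mul_comm]
  rw [this]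
  refine Finset.sum_congr rfl fun q _ => ?_
  obtain ⟨x, rfl⟩ := Quotient.exists_rep q
  have hset : (Finset.univ.filter fun y : X =>
        (Quotient.mk (SameCycle.setoid f) y) = Quotient.mk (SameCycle.setoid f) x) =
      ({x, f x, f (f x)} : Finset X) := by
    ext y
    simp only [Finset.mem_insert, Finset.mem_singleton, Finset.mem_filter, Finset.mem_univ,
      true_and]
    constructor
    · intro h
      have h' : f.SameCycle x y := (Quotient.exact h).symm
      obtain ⟨k, hk⟩ := h'.exists_nat_pow_eq
      have hper : ∀ k : ℕ, (f ^ k) x = x ∨ (f ^ k) x = f x ∨ (f ^ k) x = f (f x) := by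
        intro k
        induction k with
        | zero => left; simp
        | succ k ih =>
          rw [pow_succ', Equiv.Perm.mul_apply]
          rcases ih with ih | ih | ih
          · right; left; rw [ih]
          · right; right; rw [ih]
          · left; rw [ih, h3]
      rcases hper k with h | h | h
      · left; rw [← hk, h]
      · right; left; rw [← hk, h]
      · right; right; rw [← hk, h]
    · intro hy
      refine Quotient.sound ?_
      change f.SameCycle y x
      rcases hy with rfl | rfl | rfl
      · exact SameCycle.refl _ _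
      · simp [SameCycle.refl]
      · simp [SameCycle.refl]
  rw [hset]
  symm
  exact Finset.card_eq_three.2 ⟨x, f x, f (f x), (h1 x).symm, (h2 x).symm, (h1 (f x)).symm, rfl⟩

/-! ### Faces of a connected graph with at least three vertices -/

variable {G : SimpleGraph V}

lemma RotationSystem.face_apply (R : RotationSystem G) (d : G.Dart) :
    R.face d = R.rot d.symm := rfl

lemma RotationSystem.face_fst (R : RotationSystem G) (d : G.Dart) :
    (R.face d).fst = d.snd := by
  rw [R.face_apply, R.rot_fst]; rfl

lemma RotationSystem.face_ne (R : RotationSystem G) (d : G.Dart) : R.face d ≠ d := by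
  intro h
  have h1 := R.face_fst d
  rw [h] at h1
  exact d.adj.ne h1

lemma RotationSystem.eq_of_fixed (R : RotationSystem G) {d d' : G.Dart} (h : R.rot d = d)
    (hd : d.fst = d'.fst) : d' = d := by
  obtain ⟨k, hk⟩ := R.rot_trans d d' hd
  rw [← hk]
  exact zpow_apply_eq_self_of_apply_eq_self h k

lemma exists_adj_of_connected [Finite V] (hG : G.Connected) (hV : 3 ≤ Nat.card V) (u v : V) :
    (∃ w, G.Adj u w ∧ w ≠ v) ∨ (∃ w, G.Adj v w ∧ w ≠ u) := by
  classical
  by_contra hcon
  push Not at hcon
  obtain ⟨h1, h2⟩ := hcon
  have hclosed : ∀ x y, G.Reachable x y → (x = u ∨ x = v) → (y = u ∨ y = v) := by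
    rintro x y ⟨p⟩
    induction p with
    | nil => exact id
    | cons hadj p ih =>
      intro hx
      apply ih
      rcases hx with rfl | rfl
      · right; exact h1 _ hadj
      · left; exact h2 _ hadj
  have hall : ∀ y, y = u ∨ y = v := fun y => hclosed u y (hG.preconnected u y) (Or.inl rfl)
  have := Fintype.ofFinite V
  have hle : Nat.card V ≤ 2 := by
    rw [Nat.card_eq_fintype_card, ← Finset.card_univ]
    calc (Finset.univ : Finset V).card ≤ ({u, v} : Finset V).card := by
          apply Finset.card_le_card
          intro y _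
          rcases hall y with rfl | rfl <;> simp
      _ ≤ 2 := Finset.card_le_two
  omega

lemma RotationSystem.face_face_ne [Finite V] (R : RotationSystem G) (hG : G.Connected)
    (hV : 3 ≤ Nat.card V) (d : G.Dart) : R.face (R.face d) ≠ d := by
  intro h
  have h1 : (R.face d).fst = d.snd := R.face_fst d
  have h2 : (R.face d).snd = d.fst := by
    rw [← R.face_fst (R.face d), h]
  have h3 : R.face d = d.symm := by
    apply Dart.ext
    exact Prod.ext h1 h2
  have h4 : R.rot d.symm = d.symm := by rw [← R.face_apply, h3]
  have h5 : R.rot d = d := by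
    rw [h3, R.face_apply, Dart.symm_symm] at h
    exact h
  rcases exists_adj_of_connected hG hV d.fst d.snd with ⟨w, hw, hne⟩ | ⟨w, hw, hne⟩
  · have := R.eq_of_fixed (d := d) (d' := ⟨(d.fst, w), hw⟩) h5 rfl
    apply hne
    rw [← this]
  · have := R.eq_of_fixed (d := d.symm) (d' := ⟨(d.snd, w), hw⟩) h4 rfl
    apply hne
    have h6 : w = d.fst := congrArg (fun x : G.Dart => x.snd) this
    exact h6

instance [Finite V] (G : SimpleGraph V) : Finite G.Dart := by
  classical
  have := Fintype.ofFinite V
  infer_instance

lemma card_dart [Finite V] (G : SimpleGraph V) : Nat.card G.Dart = 2 * Nat.card G.edgeSet := by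
  classical
  have := Fintype.ofFinite V
  rw [Nat.card_eq_fintype_card, G.dart_card_eq_twice_card_edges, Nat.card_eq_fintype_card]
  congr 1
  exact Set.toFinset_card _

lemma card_component (hG : G.Connected) : Nat.card G.ConnectedComponent = 1 := by
  have h1 : Subsingleton G.ConnectedComponent := hG.preconnected.subsingleton_connectedComponent
  have h2 : Nonempty G.ConnectedComponent := by
    obtain ⟨v⟩ := hG.nonempty
    exact ⟨G.connectedComponentMk v⟩
  exact Nat.card_eq_one_iff_unique.2 ⟨h1, h2⟩

lemma card_isolated [Finite V] (hG : G.Connected) (hV : 3 ≤ Nat.card V) :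
    Nat.card {v : V // ∀ w, ¬ G.Adj v w} = 0 := by
  have : IsEmpty {v : V // ∀ w, ¬ G.Adj v w} := by
    refine ⟨fun v => ?_⟩
    obtain ⟨v, hv⟩ := v
    rcases exists_adj_of_connected hG hV v v with ⟨w, hw, _⟩ | ⟨w, hw, _⟩
    · exact hv w hw
    · exact hv w hw
  exact Nat.card_of_isEmpty

/-- A connected planar graph with `n ≥ 3` vertices has at most `3 n - 6` edges. -/
theorem IsPlanar.card_edges_le [Finite V] (hG : G.Connected) (hV : 3 ≤ Nat.card V)
    (hP : IsPlanar G) : Nat.card G.edgeSet + 6 ≤ 3 * Nat.card V := by
  obtain ⟨R, hR⟩ := hP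
  have h1 := three_mul_card_le R.face R.face_ne (R.face_face_ne hG hV)
  rw [card_dart] at h1
  rw [card_component hG, card_isolated hG hV] at hR
  unfold RotationSystem.numFaces at hR
  omega

/-- A connected graph with `n ≥ 3` vertices and `3 n - 6` edges and a rotation system all of
whose faces are triangles is maximal planar. -/
theorem maximalPlanar_of_triangles [Finite V] (hG : G.Connected) (hV : 3 ≤ Nat.card V)
    (R : RotationSystem G) (hface : ∀ d, R.face (R.face (R.face d)) = d)
    (hE : Nat.card G.edgeSet + 6 = 3 * Nat.card V) : MaximalPlanar G := by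
  classical
  refine ⟨⟨R, ?_⟩, ?_⟩
  · have h1 := three_mul_card_eq R.face R.face_ne hface
    rw [card_dart] at h1
    rw [card_component hG, card_isolated hG hV]
    unfold RotationSystem.numFaces
    omega
  · intro u v huv hadj hP
    have hG' : (G ⊔ edge u v).Connected := hG.mono le_sup_left
    have h1 := hP.card_edges_le hG' hV
    have := Fintype.ofFinite V
    have h2 : Nat.card (G ⊔ edge u v).edgeSet = Nat.card G.edgeSet + 1 := by
      have h3 := G.card_edgeFinset_sup_edge hadj huv
      rw [Nat.card_eq_fintype_card, Nat.card_eq_fintype_card]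
      simpa [SimpleGraph.edgeFinset, Set.toFinset_card] using h3
    omega

/-! ### Criteria for explicit graphs -/

/-- Criterion by an abstract set of darts `D`: `src d` is the initial vertex, `α` reverses a dart
and `φ` goes around the triangle to the left of the dart. -/
theorem maximalPlanar_of_darts {D : Type*} [Finite V] (G : SimpleGraph V)
    (src : D → V) (α φ : D → D)
    (hα : ∀ d, α (α d) = d) (hφ : ∀ d, φ (φ (φ d)) = d) (hsrc : ∀ d, src (φ d) = src (α d))
    (hinj : ∀ d d', src d = src d' → src (α d) = src (α d') → d = d')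
    (hadj : ∀ u v, G.Adj u v ↔ ∃ d, src d = u ∧ src (α d) = v)
    (hrot : ∀ d d', src d = src d' → ∃ k : ℕ, (fun x => φ (α x))^[k] d = d')
    (hG : G.Connected) (hV : 3 ≤ Nat.card V) (hcard : Nat.card D + 12 = 6 * Nat.card V) :
    MaximalPlanar G := by
  classical
  -- the equivalence between `D` and the darts of `G`
  let f : D → G.Dart := fun d => ⟨(src d, src (α d)), (hadj _ _).2 ⟨d, rfl, rfl⟩⟩
  have hfinj : Function.Injective f := by
    intro d d' h
    have h1 : (f d).fst = (f d').fst := by rw [h]
    have h2 : (f d).snd = (f d').snd := by rw [h]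
    exact hinj d d' h1 h2
  have hfsurj : Function.Surjective f := by
    rintro ⟨⟨u, v⟩, h⟩
    obtain ⟨d, hd1, hd2⟩ := (hadj u v).1 h
    refine ⟨d, ?_⟩
    apply Dart.ext
    exact Prod.ext hd1 hd2
  let e : D ≃ G.Dart := Equiv.ofBijective f ⟨hfinj, hfsurj⟩
  have he : ∀ d, e d = f d := fun d => rfl
  let αp : Equiv.Perm D := Function.Involutive.toPerm α hα
  let φp : Equiv.Perm D :=
    { toFun := φ
      invFun := fun d => φ (φ d)
      left_inv := hφ
      right_inv := hφ }
  let σ : Equiv.Perm D := αp.trans φp
  have hσ : ∀ d, σ d = φ (α d) := fun d => rfl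
  have hσk : ∀ (k : ℕ) d, (σ ^ k) d = (fun x => φ (α x))^[k] d := by
    intro k d
    rw [Equiv.Perm.iterate_eq_pow σ k |>.symm]
    rfl
  let rot : Equiv.Perm G.Dart := (e.symm.trans σ).trans e
  have hrot_apply : ∀ d, rot (e d) = e (σ d) := by
    intro d
    change e (σ (e.symm (e d))) = _
    rw [e.symm_apply_apply]
  have hrot_pow : ∀ (k : ℕ) d, (rot ^ k) (e d) = e ((σ ^ k) d) := by
    intro k
    induction k with
    | zero => intro d; rfl
    | succ k ih =>
      intro d
      rw [pow_succ', Equiv.Perm.mul_apply, ih, hrot_apply, pow_succ', Equiv.Perm.mul_apply]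
  have hsymm : ∀ d, (e d).symm = e (α d) := by
    intro d
    apply Dart.ext
    apply Prod.ext
    · rfl
    · change src d = src (α (α d))
      rw [hα]
  let R : RotationSystem G :=
    { rot := rot
      rot_fst := by
        intro d
        obtain ⟨d, rfl⟩ := e.surjective d
        rw [hrot_apply]
        change src (φ (α d)) = src d
        rw [hsrc, hα]
      rot_trans := by
        intro d d' h
        obtain ⟨d, rfl⟩ := e.surjective d
        obtain ⟨d', rfl⟩ := e.surjective d'
        obtain ⟨k, hk⟩ := hrot d d' h
        refine ⟨(k : ℤ), ?_⟩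
        rw [zpow_natCast, hrot_pow, hσk, hk] }
  have hface : ∀ d, R.face (e d) = e (φ d) := by
    intro d
    rw [R.face_apply, hsymm]
    change rot (e (α d)) = _
    rw [hrot_apply, hσ, hα]
  refine maximalPlanar_of_triangles hG hV R ?_ ?_
  · intro d
    obtain ⟨d, rfl⟩ := e.surjective d
    rw [hface, hface, hface, hφ]
  · have h1 : Nat.card D = Nat.card G.Dart := Nat.card_congr e
    rw [card_dart] at h1
    omega

/-- The pair `(a, b)` is consecutive in the cyclic list `l`. -/
def Consec {α : Type*} (l : List α) (a b : α) : Prop :=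
  ∃ k, l[k]? = some a ∧ l[(k + 1) % l.length]? = some b

lemma consec_iff_zip {α : Type*} (l : List α) (a b : α) :
    Consec l a b ↔ (a, b) ∈ l.zip (l.rotate 1) := by
  rw [List.mem_iff_getElem?]
  unfold Consec
  refine exists_congr fun k => ?_
  rw [List.getElem?_zip_eq_some]
  constructor
  · rintro ⟨h1, h2⟩
    refine ⟨h1, ?_⟩
    have hk : k < l.length := by
      by_contra hk
      rw [List.getElem?_eq_none (by omega)] at h1
      cases h1
    rw [List.getElem?_rotate hk]
    exact h2
  · rintro ⟨h1, h2⟩
    refine ⟨h1, ?_⟩
    have hk : k < l.length := by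
      by_contra hk
      rw [List.getElem?_eq_none (by omega)] at h1
      cases h1
    rw [List.getElem?_rotate hk] at h2
    exact h2

instance {α : Type*} [DecidableEq α] (l : List α) (a b : α) : Decidable (Consec l a b) :=
  decidable_of_iff _ (consec_iff_zip l a b).symm

/-- Criterion by rotation lists: `nb v` lists the neighbours of `v` in their cyclic order.  The
only local condition is that consecutive neighbours `u, w` of `v` close up a triangle face:
around `w` the vertex `u` comes directly after `v`. -/
theorem maximalPlanar_of_lists [Fintype V] (G : SimpleGraph V) (nb : V → List V)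
    (hnd : ∀ v, (nb v).Nodup) (hadj : ∀ u v, G.Adj u v ↔ v ∈ nb u)
    (htri : ∀ v u w, Consec (nb v) u w → Consec (nb w) v u)
    (hG : G.Connected) (hV : 3 ≤ Fintype.card V)
    (hcard : ∑ v, (nb v).length + 12 = 6 * Fintype.card V) :
    MaximalPlanar G := by
  classical
  have hsymm : ∀ u v, v ∈ nb u → u ∈ nb v := fun u v h => (hadj v u).1 ((hadj u v).2 h).symm
  -- positions
  let D := (v : V) × Fin (nb v).length
  have hget : ∀ (v u : V), u ∈ nb v → ∃ i : Fin (nb v).length, (nb v)[i] = u := by
    intro v u h
    obtain ⟨i, hi, h⟩ := List.mem_iff_getElem.1 h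
    exact ⟨⟨i, hi⟩, h⟩
  choose pos hpos using hget
  have hpos_uniq : ∀ v (i j : Fin (nb v).length), (nb v)[i] = (nb v)[j] → i = j := by
    intro v i j h
    have := (hnd v).getElem_inj_iff.1 h
    exact Fin.ext this
  let tgt : D → V := fun d => (nb d.1)[d.2]
  have htgt_mem : ∀ d : D, tgt d ∈ nb d.1 := fun d => List.getElem_mem _
  let mk : (v u : V) → u ∈ nb v → D := fun v u h => ⟨v, pos v u h⟩
  have hmk_tgt : ∀ v u h, tgt (mk v u h) = u := fun v u h => hpos v u h
  have hD_ext : ∀ d d' : D, d.1 = d'.1 → tgt d = tgt d' → d = d' := by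
    rintro ⟨v, i⟩ ⟨v', i'⟩ h1 h2
    change v = v' at h1
    subst h1
    have : i = i' := hpos_uniq v i i' h2
    rw [this]
  let α : D → D := fun d => mk (tgt d) d.1 (hsymm _ _ (htgt_mem d))
  have hα1 : ∀ d, (α d).1 = tgt d := fun d => rfl
  have hα2 : ∀ d, tgt (α d) = d.1 := fun d => hmk_tgt _ _ _
  -- the successor around the vertex
  let suc : D → D := fun d =>
    ⟨d.1, ⟨(d.2.1 + 1) % (nb d.1).length, Nat.mod_lt _ (lt_of_le_of_lt (Nat.zero_le _) d.2.2)⟩⟩
  have hsuc_consec : ∀ d : D, Consec (nb d.1) (tgt d) (tgt (suc d)) := by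
    intro d
    refine ⟨d.2.1, ?_, ?_⟩
    · exact List.getElem?_eq_getElem d.2.2
    · exact List.getElem?_eq_getElem _
  have hconsec_suc : ∀ (d : D) (w : V), Consec (nb d.1) (tgt d) w → tgt (suc d) = w := by
    rintro d w ⟨k, hk1, hk2⟩
    have hk : k < (nb d.1).length := by
      by_contra hk
      rw [List.getElem?_eq_none (by omega)] at hk1
      cases hk1
    rw [List.getElem?_eq_getElem hk] at hk1
    have h1 : (nb d.1)[k] = (nb d.1)[d.2.1] := Option.some.inj hk1
    have h2 : k = d.2.1 := (hnd d.1).getElem_inj_iff.1 h1
    subst h2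
    have h3 : (nb d.1)[(d.2.1 + 1) % (nb d.1).length]? = some (tgt (suc d)) :=
      List.getElem?_eq_getElem _
    rw [h3] at hk2
    exact Option.some.inj hk2
  let φ : D → D := fun d => suc (α d)
  have hφ1 : ∀ d, (φ d).1 = tgt d := fun d => rfl
  -- `φ d = (v → w)` with `w` after `u` around `v`, for `d = (u → v)`
  have hφ_step : ∀ d, tgt (φ (φ d)) = d.1 := by
    intro d
    -- d = (u → v), φ d = (v → w); consecutive (u, w) at v
    have h1 : Consec (nb (tgt d)) d.1 (tgt (φ d)) := by
      have := hsuc_consec (α d)
      rw [hα2] at this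
      exact this
    have h2 := htri _ _ _ h1
    -- around w = tgt (φ d): u comes after v
    have h3 : Consec (nb (α (φ d)).1) (tgt (α (φ d))) d.1 := by
      rw [hα1, hα2, hφ1]
      exact h2
    exact hconsec_suc (α (φ d)) d.1 h3
  refine maximalPlanar_of_darts (D := D) G (fun d => d.1) α φ ?_ ?_ ?_ ?_ ?_ ?_ hG ?_ ?_
  · intro d
    apply hD_ext
    · exact hα2 d
    · rw [hα2, hα1]
  · intro d
    apply hD_ext
    · exact hφ_step d
    · rw [hφ_step, hφ1]
  · intro d; rfl
  · intro d d' h1 h2
    exact hD_ext d d' h1 h2
  · intro u v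
    rw [hadj]
    constructor
    · intro h
      exact ⟨mk u v h, rfl, hmk_tgt u v h⟩
    · rintro ⟨d, rfl, rfl⟩
      exact htgt_mem d
  · rintro ⟨v, i⟩ ⟨v', j⟩ h
    change v = v' at h
    subst h
    have hstep : ∀ x : D, φ (α x) = suc x := by
      intro x
      change suc (α (α x)) = suc x
      congr 1
      apply hD_ext
      · exact hα2 x
      · rw [hα2, hα1]
    have hpos' : 0 < (nb v).length := lt_of_le_of_lt (Nat.zero_le _) i.2
    have hiter : ∀ k : ℕ, (fun x => φ (α x))^[k] ⟨v, i⟩ =
        (⟨v, ⟨(i.1 + k) % (nb v).length, Nat.mod_lt _ hpos'⟩⟩ : D) := by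
      intro k
      induction k with
      | zero =>
        simp only [Function.iterate_zero, id_eq, Nat.add_zero]
        congr 1
        exact Fin.ext (Nat.mod_eq_of_lt i.2).symm
      | succ k ih =>
        rw [Function.iterate_succ_apply', ih]
        rw [hstep]
        change (⟨v, _⟩ : D) = ⟨v, _⟩
        congr 1
        apply Fin.ext
        change ((i.1 + k) % (nb v).length + 1) % (nb v).length = (i.1 + (k + 1)) % (nb v).length
        rw [Nat.mod_add_mod, Nat.add_assoc]
    refine ⟨(nb v).length - i.1 + j.1, ?_⟩
    rw [hiter]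
    congr 1
    apply Fin.ext
    change (i.1 + ((nb v).length - i.1 + j.1)) % (nb v).length = j.1
    have : i.1 + ((nb v).length - i.1 + j.1) = j.1 + (nb v).length := by
      have := i.2
      omega
    rw [this, Nat.add_mod_right, Nat.mod_eq_of_lt j.2]
  · rw [Nat.card_eq_fintype_card]; exact hV
  · rw [Nat.card_eq_fintype_card, Nat.card_eq_fintype_card, Fintype.card_sigma]
    simpa using hcard

end Pool.Agent.Lib.CookLevin
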