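import Pool.Agent.Lib.CookLevin.Tableau

/-!
# The CNF generator runs in polynomial time

* `Tab.PT_cnf`: for a fixed `M : Tab`, the map `(x, P, Q) ↦ M.cnf x P Q` is polynomial time
* `exists_unary`: for a fixed polynomial `p`, a list of length `p (l.length)` is polynomial time
-/

set_option autoImplicit false

namespace Pool.Agent.Lib.CookLevin

open Pool.Agent.PolyTime

variable {α β γ : Type*} [Enc α] [Enc β] [Enc γ]

namespace Tab

variable (M : Tab)

@[fun_prop] lemma PT_pos {i : α → ℕ} (hi : PT i) : PT fun a => M.pos (i a) := by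
  refine PT.append (PT.const _) ?_
  exact PT.map (f := fun a j => i a + j - M.c) (by fun_prop) (PT.const _)

@[fun_prop] lemma PT_var {B t i s : α → ℕ} (hB : PT B) (ht : PT t) (hi : PT i) (hs : PT s) :
    PT fun a => M.var (B a) (t a) (i a) (s a) := by
  unfold var
  fun_prop

@[fun_prop] lemma PT_stepClause {B t i : α → ℕ} {e : α → ℕ × List ℕ × ℕ} (hB : PT B) (ht : PT t)
    (hi : PT i) (he : PT e) : PT fun a => M.stepClause (B a) (t a) (i a) (e a) := by
  refine PT.append ?_ (by fun_prop)
  exact PT.zipWith (f := fun a j s => (M.var (B a) (t a) j s, false)) (by fun_prop) (by fun_prop)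
    (by fun_prop)

@[fun_prop] lemma PT_stepClauses {B t i : α → ℕ} (hB : PT B) (ht : PT t) (hi : PT i) :
    PT fun a => M.stepClauses (B a) (t a) (i a) := by
  refine PT.map (f := fun a e => M.stepClause (B a) (t a) (i a) e) (by fun_prop) ?_
  exact PT.filter (f := fun a (e : ℕ × List ℕ × ℕ) => decide (e.1 = min (i a) M.c))
    (PT.decide_eq (by fun_prop) (by fun_prop)) (PT.const _)

@[fun_prop] lemma PT_cells {x : α → List Bool} {P : α → List β} {Q : α → List γ} (hx : PT x)
    (hP : PT P) (hQ : PT Q) : PT fun a => M.cells (x a) (P a) (Q a) := by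
  refine PT.append (PT.map (f := fun (_ : α) b => [M.sym b]) ?_ hx) (PT.cons (PT.const _)
    (PT.append (PT.map (f := fun (_ : α) (_ : β) => [M.sym false, M.sym true, M.blank])
      (PT.const _) hP) (PT.append (PT.flatMap (f := fun (_ : α) (_ : γ) =>
        List.replicate M.c [M.blank]) (PT.const _) hQ) (PT.const _))))
  have h : PT fun p : α × Bool => bif p.2 then [M.sym true] else [M.sym false] :=
    PT.bif (by fun_prop) (PT.const _) (PT.const _)
  refine h.congr fun p => ?_
  rcases p with ⟨_, _ | _⟩ <;> rfl

lemma PT_part1 {C : α → List (List ℕ)} {B : α → ℕ} (hC : PT C) (hB : PT B) :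
    PT fun a => (C a).zipIdx.map fun p => p.1.map fun s => (M.var (B a) 0 p.2 s, true) := by
  have h : PT fun q : α × (List ℕ × ℕ) =>
      q.2.1.map fun s => (M.var (B q.1) 0 q.2.2 s, true) :=
    PT.map (f := fun (q : α × (List ℕ × ℕ)) (s : ℕ) => (M.var (B q.1) 0 q.2.2 s, true))
      (by fun_prop) (by fun_prop)
  exact PT.map (f := fun (a : α) (p : List ℕ × ℕ) =>
    p.1.map fun s => (M.var (B a) 0 p.2 s, true)) h (by fun_prop)

lemma PT_part2 {C : α → List (List ℕ)} {B : α → ℕ} (hC : PT C) (hB : PT B) :
    PT fun a => (List.range (C a).length).map fun i => [(M.var (B a) 0 i M.blank, false),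
      (M.var (B a) 0 (i + 1) M.blank, true)] :=
  PT.map (f := fun (a : α) (i : ℕ) => [(M.var (B a) 0 i M.blank, false),
      (M.var (B a) 0 (i + 1) M.blank, true)]) (by fun_prop) (by fun_prop)

lemma PT_part3 {C : α → List (List ℕ)} {Q : α → List γ} {B : α → ℕ} (hC : PT C) (hQ : PT Q)
    (hB : PT B) :
    PT fun a => (List.range (Q a).length).flatMap fun t =>
      (List.range (C a).length).flatMap fun i => M.stepClauses (B a) t i := by
  have h : PT fun q : α × ℕ =>
      (List.range (C q.1).length).flatMap fun i => M.stepClauses (B q.1) q.2 i :=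
    PT.flatMap (f := fun (q : α × ℕ) (i : ℕ) => M.stepClauses (B q.1) q.2 i)
      (by fun_prop) (PT.rangeLength (by fun_prop))
  exact PT.flatMap (f := fun (a : α) (t : ℕ) => (List.range (C a).length).flatMap fun i =>
    M.stepClauses (B a) t i) h (PT.rangeLength hQ)

lemma PT_part4 {B T : α → ℕ} (L : List ℕ) (hB : PT B) (hT : PT T) :
    PT fun a => L.map fun s => [(M.var (B a) (T a) 0 s, false)] :=
  PT.map (f := fun (a : α) (s : ℕ) => [(M.var (B a) (T a) 0 s, false)])
      (by fun_prop) (PT.const _)

@[fun_prop] lemma PT_cnfAux {C : α → List (List ℕ)} {Q : α → List γ} (hC : PT C) (hQ : PT Q) :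
    PT fun a => M.cnfAux (C a) (Q a) := by
  have hB : PT fun a => (C a).length + M.c + 1 := by fun_prop
  exact PT.append (PT.append (PT.append (M.PT_part1 hC hB) (M.PT_part2 hC hB))
    (M.PT_part3 hC hQ hB)) (M.PT_part4 _ hB (PT.length hQ))

/-- the formula is computable in polynomial time -/
@[fun_prop] theorem PT_cnf {x : α → List Bool} {P : α → List β} {Q : α → List γ} (hx : PT x)
    (hP : PT P) (hQ : PT Q) : PT fun a => M.cnf (x a) (P a) (Q a) := by
  unfold cnf
  fun_prop

end Tab

/-- for a fixed polynomial `p`, a list of length `p (l.length)` is computable in polynomial time -/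
theorem exists_unary (p : Polynomial ℕ) : ∃ f : List β → List Unit, PT f ∧
    ∀ l, (f l).length = p.eval l.length := by
  induction p using Polynomial.induction_on' with
  | add p q hp hq =>
    obtain ⟨f, hf, hf'⟩ := hp
    obtain ⟨g, hg, hg'⟩ := hq
    refine ⟨fun l => f l ++ g l, by fun_prop, fun l => ?_⟩
    rw [List.length_append, hf', hg', Polynomial.eval_add]
  | monomial n a =>
    induction n with
    | zero =>
      refine ⟨fun _ => List.replicate a (), PT.const _, fun l => ?_⟩
      rw [List.length_replicate, Polynomial.eval_monomial, pow_zero, mul_one]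
    | succ n ih =>
      obtain ⟨f, hf, hf'⟩ := ih
      refine ⟨fun l => l.flatMap fun _ => f l,
        PT.flatMap (f := fun l _ => f l) (by fun_prop) (by fun_prop), fun l => ?_⟩
      rw [List.length_flatMap, List.map_const', List.sum_replicate, hf', smul_eq_mul,
        Polynomial.eval_monomial, Polynomial.eval_monomial]
      ring

/-- the parametric version -/
theorem exists_unary' (p : Polynomial ℕ) {l : α → List β} (hl : PT l) :
    ∃ f : α → List Unit, PT f ∧ ∀ a, (f a).length = p.eval (l a).length := by
  obtain ⟨f, hf, hf'⟩ := exists_unary (β := β) p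
  exact ⟨fun a => f (l a), by fun_prop, fun a => hf' _⟩

end Pool.Agent.Lib.CookLevin
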