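import Pool.Agent.Lib.CookLevin.Defs
import Pool.Agent.Lib.CookLevin.TableauPT
import Pool.Agent.Lib.PolyTime.Final

/-!
# The step function of a `TM2` machine is a local rule

* `rowOf cfg`: the row of a configuration; cell `i` contains the label, the state, and the `i`-th
  symbols of all stacks
* `row_local`: locality
* `exists_tab`: a machine deciding a relation gives a `Tab`
* `cnfSat_hard`: every problem in NP reduces to satisfiability of CNF formulas (Cook–Levin)
-/

set_option autoImplicit false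

namespace Pool.Agent.Lib.CookLevin

open Turing

section loc

variable {K : Type*} [DecidableEq K] {Γ : K → Type*} {Λ σ : Type*}

/-- number of stack operations in a statement -/
def depth : TM2.Stmt Γ Λ σ → ℕ
  | .push _ _ q => depth q + 1
  | .peek _ _ q => depth q + 1
  | .pop _ _ q => depth q + 1
  | .load _ q => depth q
  | .branch _ q₁ q₂ => max (depth q₁) (depth q₂)
  | .goto _ => 0
  | .halt => 0

/-- the stacks look the same near the positions and at the top -/
def Sim (r : ℕ) (S₁ S₂ : ∀ k, List (Γ k)) (i₁ i₂ : ℕ) : Prop :=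
  (i₁ = i₂ ∨ (r ≤ i₁ ∧ r ≤ i₂)) ∧ (∀ k, ∀ j < r, (S₁ k)[j]? = (S₂ k)[j]?) ∧
  ∀ k d₁ d₂, d₁ + i₂ = d₂ + i₁ → d₁ ≤ i₁ + r → i₁ ≤ d₁ + r → (S₁ k)[d₁]? = (S₂ k)[d₂]?

omit [DecidableEq K] in
lemma Sim.mono {r r' : ℕ} (hr : r' ≤ r) {S₁ S₂ : ∀ k, List (Γ k)} {i₁ i₂ : ℕ}
    (h : Sim r S₁ S₂ i₁ i₂) : Sim r' S₁ S₂ i₁ i₂ := by
  obtain ⟨h1, h2, h3⟩ := h
  refine ⟨by omega, fun k j hj => h2 k j (by omega), fun k d₁ d₂ h h' h'' =>
    h3 k d₁ d₂ h (by omega) (by omega)⟩

lemma Sim.push {r : ℕ} {S₁ S₂ : ∀ k, List (Γ k)} {i₁ i₂ : ℕ}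
    (h : Sim (r + 1) S₁ S₂ i₁ i₂) (k : K) (a : Γ k) :
    Sim r (Function.update S₁ k (a :: S₁ k)) (Function.update S₂ k (a :: S₂ k)) i₁ i₂ := by
  obtain ⟨h1, h2, h3⟩ := h
  refine ⟨by omega, fun k' j hj => ?_, fun k' d₁ d₂ h h' h'' => ?_⟩
  · by_cases hk : k' = k
    · subst hk
      rw [Function.update_self, Function.update_self]
      cases j with
      | zero => simp
      | succ j => rw [List.getElem?_cons_succ, List.getElem?_cons_succ]; exact h2 _ _ (by omega)
    · rw [Function.update_of_ne hk, Function.update_of_ne hk]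
      exact h2 _ _ (by omega)
  · by_cases hk : k' = k
    · subst hk
      rw [Function.update_self, Function.update_self]
      cases d₁ with
      | zero =>
        have : d₂ = 0 := by omega
        subst this
        simp
      | succ d₁ =>
        cases d₂ with
        | zero => omega
        | succ d₂ =>
          rw [List.getElem?_cons_succ, List.getElem?_cons_succ]
          exact h3 _ _ _ (by omega) (by omega) (by omega)
    · rw [Function.update_of_ne hk, Function.update_of_ne hk]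
      exact h3 _ _ _ h (by omega) (by omega)

lemma Sim.pop {r : ℕ} {S₁ S₂ : ∀ k, List (Γ k)} {i₁ i₂ : ℕ}
    (h : Sim (r + 1) S₁ S₂ i₁ i₂) (k : K) :
    Sim r (Function.update S₁ k (S₁ k).tail) (Function.update S₂ k (S₂ k).tail) i₁ i₂ := by
  obtain ⟨h1, h2, h3⟩ := h
  have ht : ∀ (l : List (Γ k)) (j : ℕ), l.tail[j]? = l[j + 1]? := by
    intro l j; cases l <;> simp
  refine ⟨by omega, fun k' j hj => ?_, fun k' d₁ d₂ h h' h'' => ?_⟩
  · by_cases hk : k' = k
    · subst hk
      rw [Function.update_self, Function.update_self, ht, ht]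
      exact h2 _ _ (by omega)
    · rw [Function.update_of_ne hk, Function.update_of_ne hk]
      exact h2 _ _ (by omega)
  · by_cases hk : k' = k
    · subst hk
      rw [Function.update_self, Function.update_self, ht, ht]
      exact h3 _ _ _ (by omega) (by omega) (by omega)
    · rw [Function.update_of_ne hk, Function.update_of_ne hk]
      exact h3 _ _ _ h (by omega) (by omega)

omit [DecidableEq K] in
lemma Sim.head? {r : ℕ} {S₁ S₂ : ∀ k, List (Γ k)} {i₁ i₂ : ℕ}
    (h : Sim (r + 1) S₁ S₂ i₁ i₂) (k : K) : (S₁ k).head? = (S₂ k).head? := by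
  have := h.2.1 k 0 (by omega)
  rwa [← List.head?_eq_getElem?, ← List.head?_eq_getElem?] at this

lemma stepAux_sim (q : TM2.Stmt Γ Λ σ) : ∀ (r : ℕ), depth q ≤ r → ∀ (v : σ)
    (S₁ S₂ : ∀ k, List (Γ k)) (i₁ i₂ : ℕ), Sim r S₁ S₂ i₁ i₂ →
    (TM2.stepAux q v S₁).l = (TM2.stepAux q v S₂).l ∧
    (TM2.stepAux q v S₁).var = (TM2.stepAux q v S₂).var ∧
    ∀ k, ((TM2.stepAux q v S₁).stk k)[i₁]? = ((TM2.stepAux q v S₂).stk k)[i₂]? := by
  induction q with
  | push k f q ih =>
    intro r hr v S₁ S₂ i₁ i₂ h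
    obtain ⟨r, rfl⟩ : ∃ r', r = r' + 1 := ⟨r - 1, by rw [depth] at hr; omega⟩
    exact ih r (by rw [depth] at hr; omega) v _ _ _ _ (h.push k (f v))
  | peek k f q ih =>
    intro r hr v S₁ S₂ i₁ i₂ h
    obtain ⟨r, rfl⟩ : ∃ r', r = r' + 1 := ⟨r - 1, by rw [depth] at hr; omega⟩
    have := ih (r + 1) (by rw [depth] at hr; omega) (f v (S₁ k).head?) _ _ _ _ h
    simp only [TM2.stepAux]
    rw [← h.head? k]
    exact this
  | pop k f q ih =>
    intro r hr v S₁ S₂ i₁ i₂ h
    obtain ⟨r, rfl⟩ : ∃ r', r = r' + 1 := ⟨r - 1, by rw [depth] at hr; omega⟩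
    have := ih r (by rw [depth] at hr; omega) (f v (S₁ k).head?) _ _ _ _ (h.pop k)
    simp only [TM2.stepAux]
    rw [← h.head? k]
    exact this
  | load a q ih =>
    intro r hr v S₁ S₂ i₁ i₂ h
    exact ih r hr (a v) _ _ _ _ h
  | branch f q₁ q₂ ih₁ ih₂ =>
    intro r hr v S₁ S₂ i₁ i₂ h
    rw [depth] at hr
    simp only [TM2.stepAux]
    cases f v with
    | true => exact ih₁ r (le_trans (le_max_left _ _) hr) v _ _ _ _ h
    | false => exact ih₂ r (le_trans (le_max_right _ _) hr) v _ _ _ _ h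
  | goto f =>
    intro r hr v S₁ S₂ i₁ i₂ h
    exact ⟨rfl, rfl, fun k => h.2.2 k i₁ i₂ (by omega) (by omega) (by omega)⟩
  | halt =>
    intro r hr v S₁ S₂ i₁ i₂ h
    exact ⟨rfl, rfl, fun k => h.2.2 k i₁ i₂ (by omega) (by omega) (by omega)⟩

/-- the row of a configuration -/
def rowOf (cfg : TM2.Cfg Γ Λ σ) (i : ℕ) : Option Λ × σ × (∀ k, Option (Γ k)) :=
  (cfg.l, cfg.var, fun k => (cfg.stk k)[i]?)

/-- the positions of the window -/
def posL (c i : ℕ) : List ℕ := List.range c ++ (List.range (2 * c + 1)).map fun j => i + j - c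

omit [DecidableEq K] in
lemma sim_of_window {c : ℕ} {cfg₁ cfg₂ : TM2.Cfg Γ Λ σ} {i₁ i₂ : ℕ} (hm : min i₁ c = min i₂ c)
    (h : (posL c i₁).map (rowOf cfg₁) = (posL c i₂).map (rowOf cfg₂)) :
    cfg₁.l = cfg₂.l ∧ cfg₁.var = cfg₂.var ∧ Sim c cfg₁.stk cfg₂.stk i₁ i₂ := by
  rw [posL, posL, List.map_append, List.map_append, List.map_map, List.map_map] at h
  obtain ⟨h1, h2⟩ := List.append_inj h (by simp)
  rw [List.map_inj_left] at h1 h2
  simp only [List.mem_range, Function.comp] at h1 h2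
  have h3 := h2 c (by omega)
  have e : ∀ i : ℕ, i + c - c = i := fun i => by omega
  rw [e, e] at h3
  refine ⟨congrArg (fun x => x.1) h3, congrArg (fun x => x.2.1) h3, by omega, ?_, ?_⟩
  · intro k j hj
    exact congrFun (congrArg (fun x => x.2.2) (h1 j hj)) k
  · intro k d₁ d₂ h h' h''
    have h4 := h2 (d₁ + c - i₁) (by omega)
    have e1 : i₁ + (d₁ + c - i₁) - c = d₁ := by omega
    have e2 : i₂ + (d₁ + c - i₁) - c = d₂ := by omega
    rw [e1, e2] at h4
    exact congrFun (congrArg (fun x => x.2.2) h4) k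

/-- the total step function -/
def stepT (M : Λ → TM2.Stmt Γ Λ σ) (cfg : TM2.Cfg Γ Λ σ) : TM2.Cfg Γ Λ σ :=
  (TM2.step M cfg).getD cfg

/-- locality of the step function -/
theorem row_local (M : Λ → TM2.Stmt Γ Λ σ) {c : ℕ} (hc : ∀ l, depth (M l) ≤ c)
    {cfg₁ cfg₂ : TM2.Cfg Γ Λ σ} {i₁ i₂ : ℕ} (hm : min i₁ c = min i₂ c)
    (h : (posL c i₁).map (rowOf cfg₁) = (posL c i₂).map (rowOf cfg₂)) :
    rowOf (stepT M cfg₁) i₁ = rowOf (stepT M cfg₂) i₂ := by
  obtain ⟨h1, h2, h3⟩ := sim_of_window hm h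
  obtain ⟨l₁, v₁, S₁⟩ := cfg₁
  obtain ⟨l₂, v₂, S₂⟩ := cfg₂
  simp only at h1 h2 h3
  subst h1 h2
  rcases l₁ with _ | l
  · have e : ∀ S : ∀ k, List (Γ k), stepT M ⟨none, v₁, S⟩ = ⟨none, v₁, S⟩ := fun S => rfl
    rw [e, e]
    unfold rowOf
    simp only [Prod.mk.injEq, true_and]
    funext k
    exact h3.2.2 k i₁ i₂ (by omega) (by omega) (by omega)
  · have e : ∀ S : ∀ k, List (Γ k), stepT M ⟨some l, v₁, S⟩ = TM2.stepAux (M l) v₁ S :=
      fun S => rfl
    rw [e, e]
    obtain ⟨h4, h5, h6⟩ := stepAux_sim (M l) c (hc l) v₁ S₁ S₂ i₁ i₂ h3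
    unfold rowOf
    rw [h4, h5]
    simp only [Prod.mk.injEq, true_and]
    funext k
    exact h6 k

/-! ### finitely many symbols -/

/-- the symbols pushed by a statement -/
def pushes : TM2.Stmt Γ Λ σ → Set (Σ k, Γ k)
  | .push k f q => Set.range (fun v => (⟨k, f v⟩ : Σ k, Γ k)) ∪ pushes q
  | .peek _ _ q => pushes q
  | .pop _ _ q => pushes q
  | .load _ q => pushes q
  | .branch _ q₁ q₂ => pushes q₁ ∪ pushes q₂
  | .goto _ => ∅
  | .halt => ∅

omit [DecidableEq K] in
lemma pushes_finite [Finite σ] (q : TM2.Stmt Γ Λ σ) : (pushes q).Finite := by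
  induction q with
  | push k f q ih => exact (Set.finite_range _).union ih
  | peek k f q ih => exact ih
  | pop k f q ih => exact ih
  | load a q ih => exact ih
  | branch f q₁ q₂ ih₁ ih₂ => exact ih₁.union ih₂
  | goto f => exact Set.finite_empty
  | halt => exact Set.finite_empty

/-- all symbols on the stacks are in `Sy` -/
def Good (Sy : Set (Σ k, Γ k)) (S : ∀ k, List (Γ k)) : Prop :=
  ∀ k, ∀ a ∈ S k, (⟨k, a⟩ : Σ k, Γ k) ∈ Sy

lemma stepAux_good {Sy : Set (Σ k, Γ k)} (q : TM2.Stmt Γ Λ σ) (hq : pushes q ⊆ Sy) (v : σ)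
    (S : ∀ k, List (Γ k)) (hS : Good Sy S) : Good Sy (TM2.stepAux q v S).stk := by
  induction q generalizing v S with
  | push k f q ih =>
    refine ih (fun x hx => hq (Or.inr hx)) v _ ?_
    intro k' a ha
    by_cases hk : k' = k
    · subst hk
      rw [Function.update_self] at ha
      rcases List.mem_cons.1 ha with rfl | ha
      · exact hq (Or.inl ⟨v, rfl⟩)
      · exact hS _ _ ha
    · rw [Function.update_of_ne hk] at ha
      exact hS _ _ ha
  | peek k f q ih => exact ih hq _ _ hS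
  | pop k f q ih =>
    refine ih hq _ _ ?_
    intro k' a ha
    by_cases hk : k' = k
    · subst hk
      rw [Function.update_self] at ha
      exact hS _ _ (List.mem_of_mem_tail ha)
    · rw [Function.update_of_ne hk] at ha
      exact hS _ _ ha
  | load a q ih => exact ih hq _ _ hS
  | branch f q₁ q₂ ih₁ ih₂ =>
    simp only [TM2.stepAux]
    cases f v with
    | true => exact ih₁ (fun x hx => hq (Or.inl hx)) _ _ hS
    | false => exact ih₂ (fun x hx => hq (Or.inr hx)) _ _ hS
  | goto f => exact hS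
  | halt => exact hS

lemma stepT_good {Sy : Set (Σ k, Γ k)} (M : Λ → TM2.Stmt Γ Λ σ) (hM : ∀ l, pushes (M l) ⊆ Sy)
    (cfg : TM2.Cfg Γ Λ σ) (h : Good Sy cfg.stk) : Good Sy (stepT M cfg).stk := by
  obtain ⟨l, v, S⟩ := cfg
  rcases l with _ | l
  · exact h
  · exact stepAux_good (M l) (hM l) v S h

/-- cells with symbols in `Sy` -/
def goodCell (Sy : Set (Σ k, Γ k)) : Set (Option Λ × σ × (∀ k, Option (Γ k))) :=
  {x | ∀ k a, x.2.2 k = some a → (⟨k, a⟩ : Σ k, Γ k) ∈ Sy}

omit [DecidableEq K] in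
lemma goodCell_finite [Finite K] [Finite Λ] [Finite σ] {Sy : Set (Σ k, Γ k)} (hSy : Sy.Finite) :
    (goodCell (Λ := Λ) (σ := σ) Sy).Finite := by
  have h1 : (Set.pi Set.univ fun k => insert none (some '' {a : Γ k | (⟨k, a⟩ : Σ k, Γ k) ∈ Sy}) :
      Set (∀ k, Option (Γ k))).Finite := by
    refine Set.Finite.pi fun k => Set.Finite.insert _ (Set.Finite.image _ ?_)
    exact hSy.preimage (fun a _ b _ h => by simpa using h)
  have h2 : ((Set.univ : Set (Option Λ)) ×ˢ (Set.univ : Set σ) ×ˢ (Set.pi Set.univ fun k =>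
      insert none (some '' {a : Γ k | (⟨k, a⟩ : Σ k, Γ k) ∈ Sy}) :
      Set (∀ k, Option (Γ k)))).Finite :=
    Set.finite_univ.prod (Set.finite_univ.prod h1)
  refine h2.subset ?_
  rintro ⟨l, v, g⟩ hg
  refine ⟨trivial, trivial, fun k _ => ?_⟩
  rcases h : g k with _ | a
  · exact Or.inl h
  · exact Or.inr ⟨a, hg k a h, h.symm⟩

omit [DecidableEq K] in
lemma rowOf_good {Sy : Set (Σ k, Γ k)} {cfg : TM2.Cfg Γ Λ σ} (h : Good Sy cfg.stk) (i : ℕ) :
    rowOf cfg i ∈ goodCell (Λ := Λ) (σ := σ) Sy := by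
  intro k a ha
  exact h k a (List.mem_of_getElem? ha)

end loc

/-! ### The tableau of a machine -/

section main

open Pool.Agent.PolyTime

lemma iterate_bind_none {τ : Type*} (f : τ → Option τ) (n : ℕ) :
    (flip bind f)^[n] none = none := by
  induction n with
  | zero => rfl
  | succ n ih => rw [Function.iterate_succ_apply]; exact ih

lemma iterate_getD {τ : Type*} (f : τ → Option τ) (n : ℕ) : ∀ a b : τ,
    (flip bind f)^[n] (some a) = some b → (fun c => (f c).getD c)^[n] a = b := by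
  induction n with
  | zero => intro a b h; exact Option.some_inj.1 h
  | succ n ih =>
    intro a b h
    rw [Function.iterate_succ_apply] at h
    have e : flip bind f (some a) = f a := rfl
    rw [e] at h
    rw [Function.iterate_succ_apply]
    rcases h' : f a with _ | a'
    · rw [h', iterate_bind_none] at h; simp at h
    · rw [h'] at h; exact ih a' b h

lemma eval_mono (p : Polynomial ℕ) {m n : ℕ} (h : m ≤ n) : p.eval m ≤ p.eval n := by
  rw [Polynomial.eval_eq_sum, Polynomial.eval_eq_sum]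
  exact Finset.sum_le_sum fun i _ => Nat.mul_le_mul_left _ (Nat.pow_le_pow_left h _)

/-- the initial cell of a machine -/
def cell0 (tm : FinTM2) (o : Option (tm.Γ tm.k₀)) :
    Option tm.Λ × tm.σ × (∀ k, Option (tm.Γ k)) :=
  (some tm.main, tm.initialState, Function.update (fun k => (none : Option (tm.Γ k))) tm.k₀ o)

lemma rowOf_initList (tm : FinTM2) (s : List (tm.Γ tm.k₀)) (i : ℕ) :
    rowOf (initList tm s : TM2.Cfg tm.Γ tm.Λ tm.σ) i = cell0 tm s[i]? := by
  unfold rowOf cell0 initList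
  simp only [Prod.mk.injEq, true_and]
  funext k
  by_cases hk : k = tm.k₀
  · subst hk
    rw [dif_pos rfl, Function.update_self]
    rfl
  · rw [dif_neg hk, Function.update_of_ne hk]
    rfl

lemma stk_haltList (tm : FinTM2) (s : List (tm.Γ tm.k₁)) :
    (haltList tm s : TM2.Cfg tm.Γ tm.Λ tm.σ).stk tm.k₁ = s := by
  unfold haltList
  exact dif_pos rfl

open Classical in
/-- a machine deciding a relation gives a tableau -/
theorem exists_tab (R : Word × Word → Bool)
    (h : TM2ComputableInPolyTime pairEnc Computability.encodeBool R) :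
    ∃ M : Tab, M.Ok ∧ ∀ (x y : Word) (t : ℕ), h.time.eval (x.length + 1 + y.length) ≤ t →
      (M.acc ((M.next^[t] (M.initRow x y)) 0) = true ↔ R (x, y) = true) := by
  let tm := h.tm
  have : Fintype tm.K := tm.kFin
  have : Fintype tm.Λ := tm.ΛFin
  have : Fintype tm.σ := tm.σFin
  have : Fintype (tm.Γ tm.k₀) := tm.Γk₀Fin
  let Sy : Set (Σ k, tm.Γ k) :=
    Set.range (fun a : tm.Γ tm.k₀ => (⟨tm.k₀, a⟩ : Σ k, tm.Γ k)) ∪ ⋃ l, pushes (tm.m l)
  have hSy : Sy.Finite := (Set.finite_range _).union (Set.finite_iUnion fun l => pushes_finite _)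
  have hpush : ∀ l, pushes (tm.m l) ⊆ Sy :=
    fun l x hx => Or.inr (Set.mem_iUnion.2 ⟨l, hx⟩)
  let c : ℕ := Finset.univ.sup fun l => depth (tm.m l)
  have hc : ∀ l, depth (tm.m l) ≤ c := fun l =>
    Finset.le_sup (f := fun l => depth (tm.m l)) (Finset.mem_univ l)
  let GA : Set (Option tm.Λ × tm.σ × (∀ k, Option (tm.Γ k))) := goodCell Sy
  have hGA : GA.Finite := goodCell_finite hSy
  have : Finite GA := hGA.to_subtype
  obtain ⟨N, ⟨e⟩⟩ := Finite.exists_equiv_fin GA
  let code : Option tm.Λ × tm.σ × (∀ k, Option (tm.Γ k)) → ℕ :=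
    fun a => if ha : a ∈ GA then (e ⟨a, ha⟩ : ℕ) else 0
  have code_lt : ∀ a, a ∈ GA → code a < N := by
    intro a ha
    simp only [code, dif_pos ha]
    exact (e ⟨a, ha⟩).2
  have code_inj : ∀ a b, a ∈ GA → b ∈ GA → code a = code b → a = b := by
    intro a b ha hb hab
    simp only [code, dif_pos ha, dif_pos hb] at hab
    exact congrArg Subtype.val (e.injective (Fin.ext hab))
  have cell_good : ∀ o, cell0 tm o ∈ GA := by
    intro o k a ha
    by_cases hk : k = tm.k₀
    · subst hk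
      exact Or.inl ⟨a, rfl⟩
    · simp only [cell0] at ha
      rw [Function.update_of_ne hk] at ha
      simp at ha
  have cell_inj : ∀ o o', cell0 tm o = cell0 tm o' → o = o' := by
    intro o o' h
    have := congrFun (congrArg (fun x => x.2.2) h) tm.k₀
    simpa [cell0] using this
  let δ : ℕ → List ℕ → ℕ := fun m w =>
    if hh : ∃ p : TM2.Cfg tm.Γ tm.Λ tm.σ × ℕ, Good Sy p.1.stk ∧ min p.2 c = m ∧
      (posL c p.2).map (fun i => code (rowOf p.1 i)) = w
    then code (rowOf (stepT tm.m hh.choose.1) hh.choose.2) else 0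
  let acc : ℕ → Bool := fun a =>
    decide (∃ z ∈ GA, code z = a ∧ z.2.2 tm.k₁ = some (h.outputAlphabet.invFun true))
  let M : Tab := ⟨N, c, δ, fun b => code (cell0 tm (some (h.inputAlphabet.invFun (some b)))),
    code (cell0 tm (some (h.inputAlphabet.invFun none))), code (cell0 tm none), acc⟩
  have hN : 0 < N := lt_of_le_of_lt (Nat.zero_le _) (code_lt _ (cell_good none))
  have hOk : M.Ok := by
    refine ⟨?_, fun b => code_lt _ (cell_good _), code_lt _ (cell_good _),
      code_lt _ (cell_good _), fun b hb => ?_, fun hb => ?_⟩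
    · intro m w _ _
      show δ m w < N
      simp only [δ]
      split
      · rename_i hh
        exact code_lt _ (rowOf_good (stepT_good tm.m hpush _ hh.choose_spec.1) _)
      · exact hN
    · have := cell_inj _ _ (code_inj _ _ (cell_good _) (cell_good _) hb)
      simp at this
    · have := cell_inj _ _ (code_inj _ _ (cell_good _) (cell_good _) hb)
      simp at this
  have hnext : ∀ cfg : TM2.Cfg tm.Γ tm.Λ tm.σ, Good Sy cfg.stk →
      M.next (fun i => code (rowOf cfg i)) = fun i => code (rowOf (stepT tm.m cfg) i) := by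
    intro cfg hcfg
    funext i
    show δ (min i c) ((posL c i).map fun i => code (rowOf cfg i)) = _
    have hh : ∃ p : TM2.Cfg tm.Γ tm.Λ tm.σ × ℕ, Good Sy p.1.stk ∧ min p.2 c = min i c ∧
      (posL c p.2).map (fun i => code (rowOf p.1 i)) =
        (posL c i).map fun i => code (rowOf cfg i) := ⟨(cfg, i), hcfg, rfl, rfl⟩
    simp only [δ]
    rw [dif_pos hh]
    obtain ⟨h1, h2, h3⟩ := hh.choose_spec
    congr 1
    refine row_local tm.m hc h2 ?_
    have hlen : (posL c hh.choose.2).length = (posL c i).length := by simp [posL]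
    refine List.ext_getElem (by simpa using hlen) ?_
    intro j hj hj'
    rw [List.getElem_map, List.getElem_map]
    refine code_inj _ _ (rowOf_good h1 _) (rowOf_good hcfg _) ?_
    have h4 : ((posL c hh.choose.2).map (fun i => code (rowOf hh.choose.1 i)))[j]? =
        ((posL c i).map fun i => code (rowOf cfg i))[j]? := by rw [h3]
    rw [List.length_map] at hj hj'
    rw [List.getElem?_map, List.getElem?_map, List.getElem?_eq_getElem hj,
      List.getElem?_eq_getElem hj'] at h4
    simpa using h4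
  have hiter : ∀ (t : ℕ) (cfg : TM2.Cfg tm.Γ tm.Λ tm.σ), Good Sy cfg.stk →
      M.next^[t] (fun i => code (rowOf cfg i)) =
        (fun i => code (rowOf ((stepT tm.m)^[t] cfg) i)) ∧
      Good Sy ((stepT tm.m)^[t] cfg).stk := by
    intro t
    induction t with
    | zero => intro cfg hcfg; exact ⟨rfl, hcfg⟩
    | succ t ih =>
      intro cfg hcfg
      rw [Function.iterate_succ_apply, Function.iterate_succ_apply, hnext cfg hcfg]
      exact ih _ (stepT_good tm.m hpush cfg hcfg)
  refine ⟨M, hOk, ?_⟩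
  intro x y t ht
  let s : List (tm.Γ tm.k₀) := (pairEnc (x, y)).map h.inputAlphabet.invFun
  let cfg : TM2.Cfg tm.Γ tm.Λ tm.σ := initList tm s
  have hgood : Good Sy cfg.stk := by
    intro k a ha
    by_cases hk : k = tm.k₀
    · subst hk
      exact Or.inl ⟨a, rfl⟩
    · have h5 : cfg.stk k = [] := by
        show (initList tm s : TM2.Cfg tm.Γ tm.Λ tm.σ).stk k = []
        unfold initList
        simp only
        rw [dif_neg hk]
      rw [h5] at ha
      simp at ha
  have hinit : M.initRow x y = fun i => code (rowOf cfg i) := by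
    funext i
    show _ = code (rowOf (initList tm s : TM2.Cfg tm.Γ tm.Λ tm.σ) i)
    rw [rowOf_initList]
    have h6 : (x.map M.sym ++ M.sep :: y.map M.sym) =
        (pairEnc (x, y)).map fun o => code (cell0 tm (some (h.inputAlphabet.invFun o))) := by
      simp only [pairEnc, List.map_append, List.map_cons, List.map_map]
      rfl
    rw [Tab.initRow, h6, List.getD_eq_getElem?_getD, List.getElem?_map]
    simp only [s]
    rw [List.getElem?_map]
    rcases (pairEnc (x, y))[i]? with _ | o <;> rfl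
  obtain ⟨h7, h8⟩ := hiter t cfg hgood
  rw [hinit, h7]
  -- the machine halts
  let out : List (tm.Γ tm.k₁) := (Computability.encodeBool (R (x, y))).map h.outputAlphabet.invFun
  have o := h.outputsFun (x, y)
  have hsteps : o.steps ≤ t := by
    refine o.steps_le_m.trans (le_trans (eval_mono _ ?_) ht)
    simp [pairEnc]; omega
  have hrun : (stepT tm.m)^[o.steps] cfg = (haltList tm out : TM2.Cfg tm.Γ tm.Λ tm.σ) := by
    have h9 := o.evals_in_steps
    exact iterate_getD _ _ _ _ h9
  have hhalt' : ∀ (n : ℕ) (v : tm.σ) (S : ∀ k, List (tm.Γ k)),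
      (stepT tm.m)^[n] ⟨none, v, S⟩ = ⟨none, v, S⟩ := by
    intro n v S
    induction n with
    | zero => rfl
    | succ n ih => rw [Function.iterate_succ_apply]; exact ih
  have hhalt : ∀ n, (stepT tm.m)^[n] (haltList tm out : TM2.Cfg tm.Γ tm.Λ tm.σ) =
      (haltList tm out : TM2.Cfg tm.Γ tm.Λ tm.σ) := fun n => hhalt' n _ _
  have hfin : (stepT tm.m)^[t] cfg = (haltList tm out : TM2.Cfg tm.Γ tm.Λ tm.σ) := by
    obtain ⟨d, rfl⟩ := Nat.exists_eq_add_of_le hsteps
    rw [Nat.add_comm, Function.iterate_add_apply, hrun, hhalt]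
  have hval : (rowOf ((stepT tm.m)^[t] cfg) 0).2.2 tm.k₁ =
      some (h.outputAlphabet.invFun (R (x, y))) := by
    show (((stepT tm.m)^[t] cfg).stk tm.k₁)[0]? = _
    rw [hfin, stk_haltList]
    rfl
  show acc (code (rowOf ((stepT tm.m)^[t] cfg) 0)) = true ↔ _
  simp only [acc, decide_eq_true_eq]
  constructor
  · rintro ⟨z, hz, hz', hz''⟩
    have := code_inj _ _ hz (rowOf_good h8 0) hz'
    subst this
    rw [hval, Option.some_inj] at hz''
    exact h.outputAlphabet.symm.injective hz''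
  · intro hR
    exact ⟨_, rowOf_good h8 0, rfl, by rw [hval, hR]⟩

/-- **Cook–Levin theorem**: every problem in NP reduces in polynomial time to the satisfiability of
CNF formulas. -/
theorem cnfSat_hard {L : Word → Prop} (hL : InNP L) :
    ∃ f : Word → List (List (ℕ × Bool)), PT f ∧ ∀ x, L x ↔ CNFSat (f x) := by
  obtain ⟨q, R, ⟨h⟩, hR⟩ := hL
  obtain ⟨M, hM, hM'⟩ := exists_tab R h
  obtain ⟨P, hP, hP'⟩ := exists_unary (β := Bool) q
  obtain ⟨T, hT, hT'⟩ := exists_unary (β := Bool) (h.time.comp (Polynomial.X + 1 + q))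
  refine ⟨fun x => M.cnf x (P x) (T x), by fun_prop, fun x => ?_⟩
  rw [Tab.cnf_iff hM, hR]
  refine exists_congr fun y => ?_
  rw [hP']
  refine and_congr_right fun hy => ?_
  rw [hM' x y]
  rw [hT', Polynomial.eval_comp]
  refine eval_mono _ ?_
  simp only [Polynomial.eval_add, Polynomial.eval_X, Polynomial.eval_one]
  omega

/-- NP-hardness by reduction from satisfiability of CNF formulas -/
theorem npHard_of_cnfSat {L' : Word → Prop} (g : List (List (ℕ × Bool)) → Word) (hg : PT g)
    (h : ∀ f, CNFSat f ↔ L' (g f)) : NPHard L' := by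
  intro L hL
  obtain ⟨f, hf, hf'⟩ := cnfSat_hard hL
  have hgf : PT fun x => g (f x) := hg.comp hf
  exact ⟨fun x => g (f x), PT.tmRaw hgf, fun x => (hf' x).trans (h _)⟩

end main

end Pool.Agent.Lib.CookLevin
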