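import Pool.Agent.Lib.CookLevin.ThreeCol

/-!
# From a tableau (one-dimensional local rule) to a CNF formula

`Tab` is an abstract local rule with symbols `< K`: the next value of cell `i` depends on
`min i c`, on the cells `0, …, c - 1`, and on the cells `i - c, …, i + c` (natural subtraction).
The initial row codes a word `x`, a separator, a certificate `y`, and then blanks.

* `Tab.cnf x P Q`: the formula, for a certificate of length at most `P.length` and `Q.length` steps
* `Tab.cnf_iff`: the formula is satisfiable iff for some certificate `y` the value of cell `0` after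
  `Q.length` steps is accepting
* `Tab.PT_cnf`: the formula is computable in polynomial time
-/

set_option autoImplicit false

namespace Pool.Agent.Lib.CookLevin

open Pool.Agent.PolyTime

/-- an abstract local rule -/
structure Tab where
  /-- number of symbols -/
  K : ℕ
  /-- radius -/
  c : ℕ
  /-- the rule -/
  δ : ℕ → List ℕ → ℕ
  /-- symbols of the letters of the input -/
  sym : Bool → ℕ
  /-- separator -/
  sep : ℕ
  /-- blank -/
  blank : ℕ
  /-- accepting symbols -/
  acc : ℕ → Bool

/-- all words of length `n` over the numbers below `K` -/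
def words (K : ℕ) : ℕ → List (List ℕ)
  | 0 => [[]]
  | n + 1 => (List.range K).flatMap fun a => (words K n).map fun w => a :: w

lemma mem_words {K n : ℕ} {w : List ℕ} : w ∈ words K n ↔ w.length = n ∧ ∀ a ∈ w, a < K := by
  induction n generalizing w with
  | zero =>
    simp only [words, List.mem_singleton]
    constructor
    · rintro rfl; simp
    · rintro ⟨h, _⟩; exact List.length_eq_zero_iff.1 h
  | succ n ih =>
    simp only [words, List.mem_flatMap, List.mem_range, List.mem_map]
    constructor
    · rintro ⟨a, ha, w', hw', rfl⟩
      obtain ⟨h1, h2⟩ := ih.1 hw'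
      refine ⟨by simp [h1], ?_⟩
      intro b hb
      rcases List.mem_cons.1 hb with rfl | hb
      · exact ha
      · exact h2 b hb
    · rintro ⟨h1, h2⟩
      cases w with
      | nil => simp at h1
      | cons a w =>
        refine ⟨a, h2 a (by simp), w, ih.2 ⟨by simpa using h1, fun b hb => h2 b (by simp [hb])⟩, rfl⟩

namespace Tab

/-- conditions on a local rule -/
structure Ok (M : Tab) : Prop where
  δ_lt : ∀ m w, w.length = 3 * M.c + 1 → (∀ a ∈ w, a < M.K) → M.δ m w < M.K
  sym_lt : ∀ b, M.sym b < M.K
  sep_lt : M.sep < M.K
  blank_lt : M.blank < M.K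
  sym_ne : ∀ b, M.sym b ≠ M.blank
  sep_ne : M.sep ≠ M.blank

variable (M : Tab)

/-- the cells on which the next value of cell `i` depends -/
def pos (i : ℕ) : List ℕ :=
  List.range M.c ++ (List.range (2 * M.c + 1)).map fun j => i + j - M.c

/-- the next row -/
def next (r : ℕ → ℕ) (i : ℕ) : ℕ := M.δ (min i M.c) ((M.pos i).map r)

/-- the initial row -/
def initRow (x y : List Bool) (i : ℕ) : ℕ :=
  (x.map M.sym ++ M.sep :: y.map M.sym).getD i M.blank

/-- number of the variable (cell `i` at time `t` is `a`) -/
def var (B t i a : ℕ) : ℕ := (t * B + i) * M.K + a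

/-- the table of the rule -/
def table : List (ℕ × List ℕ × ℕ) :=
  (List.range (M.c + 1)).flatMap fun m => (words M.K (3 * M.c + 1)).map fun w => (m, w, M.δ m w)

/-- a step clause -/
def stepClause (B t i : ℕ) (e : ℕ × List ℕ × ℕ) : List (ℕ × Bool) :=
  List.zipWith (fun j a => (M.var B t j a, false)) (M.pos i) e.2.1 ++
    [(M.var B (t + 1) i e.2.2, true)]

/-- the step clauses -/
def stepClauses (B t i : ℕ) : List (List (ℕ × Bool)) :=
  (M.table.filter fun e => decide (e.1 = min i M.c)).map (M.stepClause B t i)

section

variable {β γ : Type*}

/-- allowed symbols in the cells of the initial row -/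
def cells (x : List Bool) (P : List β) (Q : List γ) : List (List ℕ) :=
  x.map (fun b => [M.sym b]) ++ [M.sep] ::
    (P.map (fun _ => [M.sym false, M.sym true, M.blank]) ++
      (Q.flatMap (fun _ => List.replicate M.c [M.blank]) ++ [[M.blank]]))

/-- the formula with given cells -/
def cnfAux (C : List (List ℕ)) (Q : List γ) : List (List (ℕ × Bool)) :=
  (C.zipIdx.map fun p => p.1.map fun a => (M.var (C.length + M.c + 1) 0 p.2 a, true)) ++
  ((List.range C.length).map fun i => [(M.var (C.length + M.c + 1) 0 i M.blank, false),
    (M.var (C.length + M.c + 1) 0 (i + 1) M.blank, true)]) ++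
  ((List.range Q.length).flatMap fun t =>
    (List.range C.length).flatMap fun i => M.stepClauses (C.length + M.c + 1) t i) ++
  (((List.range M.K).filter fun a => !M.acc a).map fun a =>
    [(M.var (C.length + M.c + 1) Q.length 0 a, false)])

/-- the formula -/
def cnf (x : List Bool) (P : List β) (Q : List γ) : List (List (ℕ × Bool)) :=
  M.cnfAux (M.cells x P Q) Q

end

/-! ### Correctness -/

section correctness

variable {M}

lemma pos_length (i : ℕ) : (M.pos i).length = 3 * M.c + 1 := by
  simp [pos]; omega

lemma mem_pos {i j : ℕ} (h : j ∈ M.pos i) : j < M.c ∨ j ≤ i + M.c := by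
  rw [pos, List.mem_append, List.mem_map] at h
  rcases h with h | ⟨k, hk, rfl⟩
  · exact Or.inl (List.mem_range.1 h)
  · rw [List.mem_range] at hk
    right; omega

lemma mem_table {m : ℕ} {w : List ℕ} (hm : m ≤ M.c) (hw : w.length = 3 * M.c + 1)
    (hw' : ∀ a ∈ w, a < M.K) : (m, w, M.δ m w) ∈ M.table := by
  rw [table, List.mem_flatMap]
  exact ⟨m, List.mem_range.2 (by omega), List.mem_map.2 ⟨w, mem_words.2 ⟨hw, hw'⟩, rfl⟩⟩

lemma of_mem_table {e : ℕ × List ℕ × ℕ} (h : e ∈ M.table) :
    e.2.1.length = 3 * M.c + 1 ∧ (∀ a ∈ e.2.1, a < M.K) ∧ e.2.2 = M.δ e.1 e.2.1 := by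
  rw [table, List.mem_flatMap] at h
  obtain ⟨m, _, h⟩ := h
  rw [List.mem_map] at h
  obtain ⟨w, hw, rfl⟩ := h
  obtain ⟨h1, h2⟩ := mem_words.1 hw
  exact ⟨h1, h2, rfl⟩

lemma initRow_lt (hM : M.Ok) (x y : List Bool) (i : ℕ) : M.initRow x y i < M.K := by
  rw [initRow, List.getD_eq_getElem?_getD]
  rcases h : (x.map M.sym ++ M.sep :: y.map M.sym)[i]? with _ | a
  · exact hM.blank_lt
  · have := List.mem_of_getElem? h
    simp only [List.mem_append, List.mem_map, List.mem_cons] at this
    rcases this with ⟨b, _, rfl⟩ | rfl | ⟨b, _, rfl⟩
    · exact hM.sym_lt b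
    · exact hM.sep_lt
    · exact hM.sym_lt b

lemma next_lt (hM : M.Ok) {r : ℕ → ℕ} (hr : ∀ i, r i < M.K) (i : ℕ) : M.next r i < M.K := by
  refine hM.δ_lt _ _ (by rw [List.length_map, pos_length]) ?_
  intro a ha
  rw [List.mem_map] at ha
  obtain ⟨j, _, rfl⟩ := ha
  exact hr j

lemma iterate_next_lt (hM : M.Ok) {r : ℕ → ℕ} (hr : ∀ i, r i < M.K) (t i : ℕ) :
    (M.next^[t] r) i < M.K := by
  induction t generalizing i with
  | zero => exact hr i
  | succ t ih => rw [Function.iterate_succ_apply']; exact next_lt hM ih i

lemma initRow_eq_blank_iff (hM : M.Ok) (x y : List Bool) (i : ℕ) :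
    M.initRow x y i = M.blank ↔ x.length + 1 + y.length ≤ i := by
  rw [initRow, List.getD_eq_getElem?_getD]
  constructor
  · intro h
    by_contra h'
    have hi : i < (x.map M.sym ++ M.sep :: y.map M.sym).length := by simp; omega
    rw [List.getElem?_eq_getElem hi, Option.getD_some] at h
    have := List.getElem_mem hi
    rw [h] at this
    simp only [List.mem_append, List.mem_map, List.mem_cons] at this
    rcases this with ⟨b, _, h⟩ | h | ⟨b, _, h⟩
    · exact hM.sym_ne b h
    · exact hM.sep_ne h.symm
    · exact hM.sym_ne b h
  · intro h
    rw [List.getElem?_eq_none (by simp; omega), Option.getD_none]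

/-- the formula is satisfiable if there is an accepted certificate -/
theorem cnf_sat_of (hM : M.Ok) {β γ : Type*} (x y : List Bool) (P : List β) (Q : List γ)
    (hy : y.length ≤ P.length)
    (hacc : M.acc ((M.next^[Q.length] (M.initRow x y)) 0) = true) : CNFSat (M.cnf x P Q) := by
  have hK : 0 < M.K := lt_of_le_of_lt (Nat.zero_le _) hM.blank_lt
  set C := M.cells x P Q with hC
  set B := C.length + M.c + 1 with hB
  have hB0 : 0 < B := by omega
  let row : ℕ → ℕ → ℕ := fun t => M.next^[t] (M.initRow x y)
  have hrow : ∀ t i, row t i < M.K := fun t i => iterate_next_lt hM (initRow_lt hM x y) t i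
  let v : ℕ → Bool := fun n => decide (row (n / M.K / B) (n / M.K % B) = n % M.K)
  have hv : ∀ t i a, i < B → a < M.K → v (M.var B t i a) = decide (row t i = a) := by
    intro t i a hi ha
    have h1 : M.var B t i a / M.K = t * B + i := by
      rw [var, Nat.add_comm, Nat.add_mul_div_right _ _ hK, Nat.div_eq_of_lt ha, Nat.zero_add]
    have h2 : M.var B t i a % M.K = a := by
      rw [var, Nat.add_comm, Nat.add_mul_mod_self_right, Nat.mod_eq_of_lt ha]
    have h3 : (t * B + i) / B = t := by
      rw [Nat.add_comm, Nat.add_mul_div_right _ _ hB0, Nat.div_eq_of_lt hi, Nat.zero_add]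
    have h4 : (t * B + i) % B = i := by
      rw [Nat.add_comm, Nat.add_mul_mod_self_right, Nat.mod_eq_of_lt hi]
    show decide (row (M.var B t i a / M.K / B) (M.var B t i a / M.K % B) =
      M.var B t i a % M.K) = _
    rw [h1, h2, h3, h4]
  have hlen : C.length = x.length + 1 + P.length + (Q.flatMap (fun _ => List.replicate M.c
      [M.blank])).length + 1 := by
    rw [hC, cells]; simp only [List.length_append, List.length_cons, List.length_map,
      List.length_nil]; omega
  refine ⟨v, ?_⟩
  intro cl hcl
  rw [cnf, cnfAux, ← hC, ← hB] at hcl
  simp only [List.mem_append] at hcl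
  rcases hcl with ((hcl | hcl) | hcl) | hcl
  · -- cells
    rw [List.mem_map] at hcl
    obtain ⟨⟨L, i⟩, hp, rfl⟩ := hcl
    rw [List.mem_zipIdx_iff_getElem?] at hp
    simp only at hp
    have hi : i < C.length := (List.getElem?_eq_some_iff.1 hp).1
    -- the value of the initial row is allowed
    have key : M.initRow x y i ∈ L ∧ ∀ a ∈ L, a < M.K := by
      have hsym := hM.sym_lt
      rw [hC, cells, List.getElem?_append] at hp
      split at hp
      · rename_i h1
        rw [List.length_map] at h1
        rw [List.getElem?_map, List.getElem?_eq_getElem h1, Option.map_some,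
          Option.some_inj] at hp
        subst hp
        constructor
        · rw [initRow, List.getD_eq_getElem?_getD, List.getElem?_append_left (by simpa using h1)]
          simp [h1]
        · simp [hsym]
      · rename_i h1
        rw [List.length_map] at h1 hp
        rcases h2 : i - x.length with _ | k
        · rw [h2, List.getElem?_cons_zero, Option.some_inj] at hp
          subst hp
          constructor
          · rw [initRow, List.getD_eq_getElem?_getD,
              List.getElem?_append_right (by simpa using h1), List.length_map, h2]
            simp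
          · simp [hM.sep_lt]
        · rw [h2, List.getElem?_cons_succ, List.getElem?_append] at hp
          split at hp
          · rename_i h3
            rw [List.length_map] at h3
            rw [List.getElem?_map, List.getElem?_eq_getElem h3, Option.map_some,
              Option.some_inj] at hp
            subst hp
            constructor
            · rw [initRow, List.getD_eq_getElem?_getD,
                List.getElem?_append_right (by simpa using h1), List.length_map, h2,
                List.getElem?_cons_succ, List.getElem?_map]
              rcases y[k]? with _ | b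
              · simp
              · cases b <;> simp
            · simp [hsym, hM.blank_lt]
          · rename_i h3
            rw [List.length_map] at h3 hp
            have hL : L = [M.blank] := by
              have h4 := List.mem_of_getElem? hp
              rw [List.mem_append, List.mem_flatMap] at h4
              rcases h4 with ⟨_, _, h4⟩ | h4
              · exact (List.mem_replicate.1 h4).2
              · exact List.mem_singleton.1 h4
            subst hL
            constructor
            · rw [List.mem_singleton, initRow_eq_blank_iff hM]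
              omega
            · simp [hM.blank_lt]
    refine ⟨(M.var B 0 i (M.initRow x y i), true), List.mem_map.2 ⟨_, key.1, rfl⟩, ?_⟩
    rw [hv 0 i _ (by omega) (key.2 _ key.1)]
    simp [row]
  · -- monotonicity
    rw [List.mem_map] at hcl
    obtain ⟨i, hi, rfl⟩ := hcl
    rw [List.mem_range] at hi
    by_cases h : M.initRow x y i = M.blank
    · refine ⟨(M.var B 0 (i + 1) M.blank, true), by simp, ?_⟩
      rw [hv 0 (i + 1) _ (by omega) hM.blank_lt]
      rw [decide_eq_true_eq]
      show M.initRow x y (i + 1) = M.blank
      rw [initRow_eq_blank_iff hM] at h ⊢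
      omega
    · refine ⟨(M.var B 0 i M.blank, false), by simp, ?_⟩
      rw [hv 0 i _ (by omega) hM.blank_lt, decide_eq_false_iff_not]
      exact h
  · -- steps
    rw [List.mem_flatMap] at hcl
    obtain ⟨t, ht, hcl⟩ := hcl
    rw [List.mem_flatMap] at hcl
    obtain ⟨i, hi, hcl⟩ := hcl
    rw [List.mem_range] at hi ht
    rw [stepClauses, List.mem_map] at hcl
    obtain ⟨e, he, rfl⟩ := hcl
    rw [List.mem_filter, decide_eq_true_eq] at he
    obtain ⟨h1, h2, h3⟩ := of_mem_table he.1
    by_cases hw : (M.pos i).map (row t) = e.2.1
    · refine ⟨(M.var B (t + 1) i e.2.2, true), by simp [stepClause], ?_⟩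
      have h4 : row (t + 1) i = e.2.2 := by
        show (M.next^[t + 1] (M.initRow x y)) i = _
        rw [Function.iterate_succ_apply', next, h3, he.2]
        show M.δ _ ((M.pos i).map (row t)) = _
        rw [hw]
      rw [hv (t + 1) i _ (by omega) (h4 ▸ hrow _ _), h4]
      simp
    · -- some position is wrong
      have : ∃ k, ∃ (hk : k < (M.pos i).length) (hk' : k < e.2.1.length),
          row t (M.pos i)[k] ≠ e.2.1[k] := by
        by_contra hcon
        push Not at hcon
        refine hw (List.ext_getElem (by rw [List.length_map, pos_length, h1]) ?_)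
        intro k hk hk'
        rw [List.getElem_map]
        exact hcon k (by simpa using hk) hk'
      obtain ⟨k, hk, hk', hne⟩ := this
      refine ⟨(M.var B t (M.pos i)[k] e.2.1[k], false), ?_, ?_⟩
      · rw [stepClause, List.mem_append]
        left
        rw [List.mem_iff_getElem]
        exact ⟨k, by rw [List.length_zipWith]; omega, by rw [List.getElem_zipWith]⟩
      · have h5 := mem_pos (List.getElem_mem hk)
        rw [hv t _ _ (by omega) (h2 _ (List.getElem_mem hk'))]
        simpa using hne
  · -- final
    rw [List.mem_map] at hcl
    obtain ⟨a, ha, rfl⟩ := hcl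
    rw [List.mem_filter, List.mem_range] at ha
    refine ⟨(M.var B Q.length 0 a, false), by simp, ?_⟩
    rw [hv Q.length 0 a hB0 ha.1]
    simp only [decide_eq_false_iff_not]
    intro h
    have h6 : (M.next^[Q.length] (M.initRow x y)) 0 = a := h
    rw [h6] at hacc
    simp [hacc] at ha

/-- if the formula is satisfiable then there is an accepted certificate -/
theorem of_cnf_sat (hM : M.Ok) {β γ : Type*} (x : List Bool) (P : List β) (Q : List γ)
    (h : CNFSat (M.cnf x P Q)) : ∃ y : List Bool, y.length ≤ P.length ∧
      M.acc ((M.next^[Q.length] (M.initRow x y)) 0) = true := by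
  obtain ⟨v, hv⟩ := h
  set C := M.cells x P Q with hC
  set B := C.length + M.c + 1 with hB
  rw [cnf, cnfAux, ← hC, ← hB] at hv
  have hlen : C.length = x.length + 1 + P.length + M.c * Q.length + 1 := by
    rw [hC, cells]; simp only [List.length_append, List.length_cons, List.length_map,
      List.length_nil, List.length_flatMap, List.length_replicate, List.map_const',
      List.sum_replicate, smul_eq_mul]
    rw [Nat.mul_comm Q.length]; omega
  have hcell : ∀ i L, C[i]? = some L → ∃ a ∈ L, v (M.var B 0 i a) = true := by
    intro i L hi
    obtain ⟨l, hl, hl'⟩ := hv (L.map fun a => (M.var B 0 i a, true)) (by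
      simp only [List.mem_append]
      left; left; left
      rw [List.mem_map]
      exact ⟨(L, i), by rw [List.mem_zipIdx_iff_getElem?]; exact hi, rfl⟩)
    rw [List.mem_map] at hl
    obtain ⟨a, ha, rfl⟩ := hl
    exact ⟨a, ha, hl'⟩
  have hmono : ∀ i, i < C.length → v (M.var B 0 i M.blank) = true →
      v (M.var B 0 (i + 1) M.blank) = true := by
    intro i hi h
    obtain ⟨l, hl, hl'⟩ := hv [(M.var B 0 i M.blank, false), (M.var B 0 (i + 1) M.blank, true)] (by
      simp only [List.mem_append]
      left; left; right
      rw [List.mem_map]
      exact ⟨i, List.mem_range.2 hi, rfl⟩)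
    simp only [List.mem_cons, List.not_mem_nil, or_false] at hl
    rcases hl with rfl | rfl
    · simp [h] at hl'
    · exact hl'
  have hstep : ∀ t, t < Q.length → ∀ i, i < C.length → ∀ r : ℕ → ℕ, (∀ i, r i < M.K) →
      (∀ j ∈ M.pos i, v (M.var B t j (r j)) = true) →
      v (M.var B (t + 1) i (M.next r i)) = true := by
    intro t ht i hi r hr h
    obtain ⟨l, hl, hl'⟩ := hv (M.stepClause B t i (min i M.c, (M.pos i).map r,
      M.δ (min i M.c) ((M.pos i).map r))) (by
      simp only [List.mem_append]
      left; right
      rw [List.mem_flatMap]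
      refine ⟨t, List.mem_range.2 ht, List.mem_flatMap.2 ⟨i, List.mem_range.2 hi, ?_⟩⟩
      rw [stepClauses, List.mem_map]
      refine ⟨_, List.mem_filter.2 ⟨mem_table (min_le_right _ _)
        (by rw [List.length_map, pos_length]) ?_, by simp⟩, rfl⟩
      intro a ha
      rw [List.mem_map] at ha
      obtain ⟨j, _, rfl⟩ := ha
      exact hr j)
    rw [stepClause, List.mem_append] at hl
    rcases hl with hl | hl
    · rw [List.mem_iff_getElem] at hl
      obtain ⟨k, hk, rfl⟩ := hl
      rw [List.getElem_zipWith] at hl'
      simp only [List.getElem_map] at hl'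
      rw [h _ (List.getElem_mem _)] at hl'
      simp at hl'
    · rw [List.mem_singleton] at hl
      subst hl
      exact hl'
  have hfin : ∀ a, a < M.K → v (M.var B Q.length 0 a) = true → M.acc a = true := by
    intro a ha h
    by_contra hacc
    obtain ⟨l, hl, hl'⟩ := hv [(M.var B Q.length 0 a, false)] (by
      simp only [List.mem_append]
      right
      rw [List.mem_map]
      exact ⟨a, List.mem_filter.2 ⟨List.mem_range.2 ha, by simpa using hacc⟩, rfl⟩)
    rw [List.mem_singleton] at hl
    subst hl
    simp [h] at hl'
  -- cells in the certificate region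
  have hcert : ∀ j, j < P.length → C[x.length + 1 + j]? =
      some [M.sym false, M.sym true, M.blank] := by
    intro j hj
    have e : x.length + 1 + j - x.length = j + 1 := by omega
    rw [hC, cells, List.getElem?_append_right (by simp; omega), List.length_map, e,
      List.getElem?_cons_succ, List.getElem?_append_left (by simpa using hj)]
    simp [hj]
  have hbl : ∀ i, x.length + 1 + P.length ≤ i → i < C.length → C[i]? = some [M.blank] := by
    intro i hi hi'
    have h1 : C[i] ∈ Q.flatMap (fun _ => List.replicate M.c [M.blank]) ++ [[M.blank]] := by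
      have e : i - x.length = (i - x.length - 1) + 1 := by omega
      have h2 : C[i]? = (Q.flatMap (fun _ => List.replicate M.c [M.blank]) ++ [[M.blank]])[i -
          x.length - 1 - P.length]? := by
        rw [hC, cells, List.getElem?_append_right (by simp; omega), List.length_map, e,
          List.getElem?_cons_succ, List.getElem?_append_right (by simp; omega),
          List.length_map]
        simp
      rw [List.getElem?_eq_getElem hi'] at h2
      exact List.mem_of_getElem? h2.symm
    rw [List.getElem?_eq_getElem hi']
    rw [List.mem_append, List.mem_flatMap] at h1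
    rcases h1 with ⟨_, _, h1⟩ | h1
    · rw [(List.mem_replicate.1 h1).2]
    · rw [List.mem_singleton.1 h1]
  -- the length of the certificate
  have hex : ∃ n, n = P.length ∨ v (M.var B 0 (x.length + 1 + n) M.blank) = true :=
    ⟨P.length, Or.inl rfl⟩
  classical
  let n := Nat.find hex
  have hn : n = P.length ∨ v (M.var B 0 (x.length + 1 + n) M.blank) = true := Nat.find_spec hex
  have hnle : n ≤ P.length := Nat.find_min' hex (Or.inl rfl)
  have hnmin : ∀ j, j < n → v (M.var B 0 (x.length + 1 + j) M.blank) = false := by
    intro j hj
    have := Nat.find_min hex hj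
    push Not at this
    simpa using this.2
  have hblank : ∀ k, n ≤ k → x.length + 1 + k < C.length →
      v (M.var B 0 (x.length + 1 + k) M.blank) = true := by
    intro k hk
    induction k, hk using Nat.le_induction with
    | base =>
      intro hk
      rcases hn with hn | hn
      · obtain ⟨a, ha, ha'⟩ := hcell _ _ (hbl (x.length + 1 + n) (by omega) hk)
        rw [List.mem_singleton] at ha
        subst ha; exact ha'
      · exact hn
    | succ k hk ih =>
      intro hk'
      exact hmono (x.length + 1 + k) (by omega) (ih (by omega))
  let y : List Bool := (List.range n).map fun j => v (M.var B 0 (x.length + 1 + j) (M.sym true))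
  have hylen : y.length = n := by simp [y]
  refine ⟨y, by omega, ?_⟩
  have hinit : ∀ i, i < C.length → v (M.var B 0 i (M.initRow x y i)) = true := by
    intro i hi
    rcases lt_trichotomy i x.length with h1 | h1 | h1
    · obtain ⟨a, ha, ha'⟩ := hcell i [M.sym x[i]] (by
        rw [hC, cells, List.getElem?_append_left (by simpa using h1)]; simp [h1])
      rw [List.mem_singleton] at ha
      subst ha
      have : M.initRow x y i = M.sym x[i] := by
        rw [initRow, List.getD_eq_getElem?_getD, List.getElem?_append_left (by simpa using h1)]
        simp [h1]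
      rw [this]; exact ha'
    · obtain ⟨a, ha, ha'⟩ := hcell i [M.sep] (by
        rw [hC, cells, List.getElem?_append_right (by simp [h1])]; simp [h1])
      rw [List.mem_singleton] at ha
      subst ha
      have : M.initRow x y i = M.sep := by
        rw [initRow, List.getD_eq_getElem?_getD, List.getElem?_append_right (by simp [h1])]
        simp [h1]
      rw [this]; exact ha'
    · obtain ⟨j, rfl⟩ : ∃ j, i = x.length + 1 + j := ⟨i - x.length - 1, by omega⟩
      by_cases h2 : j < n
      · have h3 : M.initRow x y (x.length + 1 + j) = M.sym y[j] := by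
          have e : x.length + 1 + j - x.length = j + 1 := by omega
          rw [initRow, List.getD_eq_getElem?_getD, List.getElem?_append_right (by simp; omega),
            List.length_map, e, List.getElem?_cons_succ]
          simp [h2, hylen]
        rw [h3]
        have h4 : y[j] = v (M.var B 0 (x.length + 1 + j) (M.sym true)) := by simp [y]
        rcases h5 : v (M.var B 0 (x.length + 1 + j) (M.sym true)) with _ | _
        · rw [h4, h5]
          obtain ⟨a, ha, ha'⟩ := hcell _ _ (hcert j (by omega))
          simp only [List.mem_cons, List.not_mem_nil, or_false] at ha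
          rcases ha with rfl | rfl | rfl
          · exact ha'
          · rw [h5] at ha'; simp at ha'
          · rw [hnmin j h2] at ha'; simp at ha'
        · rw [h4, h5]; exact h5
      · have h3 : M.initRow x y (x.length + 1 + j) = M.blank := by
          rw [initRow_eq_blank_iff hM]; omega
        rw [h3]
        exact hblank j (by omega) hi
  have hrow : ∀ t, t ≤ Q.length → ∀ i, i + M.c * t < C.length →
      v (M.var B t i ((M.next^[t] (M.initRow x y)) i)) = true := by
    intro t
    induction t with
    | zero => intro _ i hi; exact hinit i (by omega)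
    | succ t ih =>
      intro ht i hi
      rw [Function.iterate_succ_apply']
      have e : M.c * (t + 1) = M.c * t + M.c := by ring
      refine hstep t (by omega) i (by omega) _
        (iterate_next_lt hM (initRow_lt hM x y) t) ?_
      intro j hj
      refine ih (by omega) j ?_
      rcases mem_pos hj with h1 | h1 <;> omega
  exact hfin _ (iterate_next_lt hM (initRow_lt hM x y) _ _) (hrow Q.length le_rfl 0 (by omega))

/-- correctness of the formula -/
theorem cnf_iff (hM : M.Ok) {β γ : Type*} (x : List Bool) (P : List β) (Q : List γ) :
    CNFSat (M.cnf x P Q) ↔ ∃ y : List Bool, y.length ≤ P.length ∧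
      M.acc ((M.next^[Q.length] (M.initRow x y)) 0) = true :=
  ⟨of_cnf_sat hM x P Q, fun ⟨y, hy, h⟩ => cnf_sat_of hM x y P Q hy h⟩

end correctness

end Tab

end Pool.Agent.Lib.CookLevin
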