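import Pool.Agent.Lib.PolyTime.Subsets

/-!
# From CNF satisfiability to 3-colourability of a graph given by a list of edges

`threeCol f : List (ℕ × ℕ)` is a list of edges (no loops) such that `f` is satisfiable iff the
edges can be properly coloured with three colours.  Clauses may have any length; the map is
polynomial time.

Vertices: `0` (true), `1` (false), `2` (base); `3 x + 3`, `3 x + 4` for the literals `x`, `¬ x`;
`9 i + 5`, `9 i + 8`, `9 i + 11` for the gadget at token number `i`.
-/

set_option autoImplicit false

namespace Pool.Agent.Lib.CookLevin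

open Pool.Agent.PolyTime

/-- A CNF formula is satisfiable. -/
def CNFSat (f : List (List (ℕ × Bool))) : Prop :=
  ∃ v : ℕ → Bool, ∀ cl ∈ f, ∃ l ∈ cl, v l.1 = l.2

/-- 3-colourability of a list of edges. -/
def ThreeColourable (E : List (ℕ × ℕ)) : Prop :=
  ∃ c : ℕ → Fin 3, ∀ e ∈ E, c e.1 ≠ c e.2

/-- the vertex of a literal -/
def litV (l : ℕ × Bool) : ℕ := if l.2 = true then 3 * l.1 + 3 else 3 * l.1 + 4

/-- The tokens of a clause: start, literals, end. -/
def clauseToks (cl : List (ℕ × Bool)) : List (Option (Option (ℕ × Bool))) :=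
  none :: (cl.map (fun l => some (some l)) ++ [some none])

/-- The tokens of a formula. -/
def toks (f : List (List (ℕ × Bool))) : List (Option (Option (ℕ × Bool))) :=
  f.flatMap clauseToks

/-- edges of the gadget of a literal at position `i` -/
def litEdges (l : ℕ × Bool) (i : ℕ) : List (ℕ × ℕ) :=
  [(3 * l.1 + 3, 3 * l.1 + 4), (3 * l.1 + 3, 2), (3 * l.1 + 4, 2),
    (9 * i + 11, 9 * i + 5), (litV l, 9 * i + 8), (9 * i + 5, 9 * i + 8),
    (9 * i + 5, 9 * (i + 1) + 11), (9 * i + 8, 9 * (i + 1) + 11), (9 * (i + 1) + 11, 2)]

/-- edges of a token at position `i` -/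
def tokEdges (p : Option (Option (ℕ × Bool)) × ℕ) : List (ℕ × ℕ) :=
  match p.1 with
  | none => [(9 * (p.2 + 1) + 11, 0), (9 * (p.2 + 1) + 11, 2)]
  | some o =>
    match o with
    | none => [(9 * p.2 + 11, 1)]
    | some l => litEdges l p.2

/-- The list of edges of the 3-colouring instance. -/
def threeCol (f : List (List (ℕ × Bool))) : List (ℕ × ℕ) :=
  [(0, 1), (0, 2), (1, 2)] ++ (toks f).zipIdx.flatMap tokEdges

/-- no loops -/
theorem threeCol_ne (f : List (List (ℕ × Bool))) : ∀ e ∈ threeCol f, e.1 ≠ e.2 := by
  intro e he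
  unfold threeCol at he
  rw [List.mem_append, List.mem_flatMap] at he
  rcases he with he | ⟨⟨o, i⟩, _, he⟩
  · simp at he
    rcases he with rfl | rfl | rfl <;> simp
  · rcases o with _ | _ | ⟨x, b⟩
    · simp [tokEdges] at he
      rcases he with rfl | rfl <;> simp
    · simp [tokEdges] at he
      subst he; simp
    · simp only [tokEdges, litEdges, litV, List.mem_cons, List.not_mem_nil, or_false] at he
      rcases he with rfl | rfl | rfl | rfl | rfl | rfl | rfl | rfl | rfl <;>
        (cases b <;> simp <;> omega)

/-! ### Truth values along the tokens -/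

/-- The state (value of the disjunction read so far) after a token. -/
def stepS (v : ℕ → Bool) (s : Bool) (t : Option (Option (ℕ × Bool))) : Bool :=
  match t with
  | none => false
  | some none => s
  | some (some l) => s || (v l.1 == l.2)

/-- All ends of clauses are reached with the value `true`. -/
def OKs (v : ℕ → Bool) : Bool → List (Option (Option (ℕ × Bool))) → Prop
  | _, [] => True
  | s, t :: ts => (t = some none → s = true) ∧ OKs v (stepS v s t) ts

lemma OKs_append_lits (v : ℕ → Bool) (cl : List (ℕ × Bool)) :
    ∀ (s : Bool) (ts : List (Option (Option (ℕ × Bool)))),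
    OKs v s (cl.map (fun l => some (some l)) ++ some none :: ts) ↔
      ((s = true ∨ ∃ l ∈ cl, v l.1 = l.2) ∧
        OKs v (s || cl.any fun l => v l.1 == l.2) ts) := by
  induction cl with
  | nil => intro s ts; simp [OKs, stepS]
  | cons l cl ih =>
    intro s ts
    rw [List.map_cons, List.cons_append, OKs, stepS, ih]
    simp only [reduceCtorEq, Option.some.injEq, false_implies, true_and, List.mem_cons,
      exists_eq_or_imp, List.any_cons, Bool.or_eq_true, beq_iff_eq, Bool.or_assoc]
    rw [or_assoc]

lemma OKs_toks (v : ℕ → Bool) (f : List (List (ℕ × Bool))) :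
    ∀ s, OKs v s (toks f) ↔ ∀ cl ∈ f, ∃ l ∈ cl, v l.1 = l.2 := by
  induction f with
  | nil => intro s; simp [toks, OKs]
  | cons cl f ih =>
    intro s
    have h1 : toks (cl :: f) = none :: (cl.map (fun l => some (some l)) ++ some none :: toks f) := by
      simp [toks, clauseToks]
    rw [h1, OKs, stepS, OKs_append_lits, ih]
    simp

lemma OKs_get (v : ℕ → Bool) (ts : List (Option (Option (ℕ × Bool)))) :
    ∀ s i, OKs v s ts → ts[i]? = some (some none) → (ts.take i).foldl (stepS v) s = true := by
  induction ts with
  | nil => intro s i _ h; simp at h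
  | cons t ts ih =>
    intro s i hok h
    rw [OKs] at hok
    cases i with
    | zero =>
      simp only [List.getElem?_cons_zero, Option.some.injEq] at h
      simpa using hok.1 h
    | succ i =>
      simp only [List.getElem?_cons_succ] at h
      simpa using ih _ i hok.2 h

/-! ### From an assignment to a colouring -/

/-- The colouring of the gadget vertices: previous value `a`, value `b` of the literal. -/
def colP (a b : Bool) : Fin 3 := if a = true then 1 else if b = true then 2 else 0
/-- The colouring of the gadget vertices: previous value `a`, value `b` of the literal. -/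
def colQ (a b : Bool) : Fin 3 := if a = true then 2 else if b = true then 1 else 2
/-- The colour of a truth value. -/
def colR (a : Bool) : Fin 3 := if a = true then 0 else 1

/-- value of the literal at a token -/
def tokVal (v : ℕ → Bool) (t : Option (Option (Option (ℕ × Bool)))) : Bool :=
  match t with
  | some (some (some l)) => v l.1 == l.2
  | _ => false

/-- The colouring. -/
def col (v : ℕ → Bool) (ts : List (Option (Option (ℕ × Bool)))) (n : ℕ) : Fin 3 :=
  if n = 0 then 0 else if n = 1 then 1 else if n = 2 then 2 else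
  if n % 3 = 0 then colR (v (n / 3 - 1))
  else if n % 3 = 1 then colR (!v (n / 3 - 1))
  else if n % 9 = 5 then
    colP ((ts.take (n / 9)).foldl (stepS v) false) (tokVal v (ts[n / 9]?))
  else if n % 9 = 8 then
    colQ ((ts.take (n / 9)).foldl (stepS v) false) (tokVal v (ts[n / 9]?))
  else colR ((ts.take (n / 9 - 1)).foldl (stepS v) false)

lemma col_pos (v : ℕ → Bool) (ts : List (Option (Option (ℕ × Bool)))) (x : ℕ) :
    col v ts (3 * x + 3) = colR (v x) := by
  unfold col
  rw [if_neg (by omega), if_neg (by omega), if_neg (by omega), if_pos (by omega)]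
  congr 2; omega

lemma col_neg (v : ℕ → Bool) (ts : List (Option (Option (ℕ × Bool)))) (x : ℕ) :
    col v ts (3 * x + 4) = colR (!v x) := by
  unfold col
  rw [if_neg (by omega), if_neg (by omega), if_neg (by omega), if_neg (by omega),
    if_pos (by omega)]
  congr 3; omega

lemma col_P (v : ℕ → Bool) (ts : List (Option (Option (ℕ × Bool)))) (i : ℕ) :
    col v ts (9 * i + 5) = colP ((ts.take i).foldl (stepS v) false) (tokVal v (ts[i]?)) := by
  unfold col
  rw [if_neg (by omega), if_neg (by omega), if_neg (by omega), if_neg (by omega),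
    if_neg (by omega), if_pos (by omega)]
  have : (9 * i + 5) / 9 = i := by omega
  rw [this]

lemma col_Q (v : ℕ → Bool) (ts : List (Option (Option (ℕ × Bool)))) (i : ℕ) :
    col v ts (9 * i + 8) = colQ ((ts.take i).foldl (stepS v) false) (tokVal v (ts[i]?)) := by
  unfold col
  rw [if_neg (by omega), if_neg (by omega), if_neg (by omega), if_neg (by omega),
    if_neg (by omega), if_neg (by omega), if_pos (by omega)]
  have : (9 * i + 8) / 9 = i := by omega
  rw [this]

lemma col_R (v : ℕ → Bool) (ts : List (Option (Option (ℕ × Bool)))) (i : ℕ) :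
    col v ts (9 * i + 11) = colR ((ts.take i).foldl (stepS v) false) := by
  unfold col
  rw [if_neg (by omega), if_neg (by omega), if_neg (by omega), if_neg (by omega),
    if_neg (by omega), if_neg (by omega), if_neg (by omega)]
  have : (9 * i + 11) / 9 - 1 = i := by omega
  rw [this]

lemma col_lit (v : ℕ → Bool) (ts : List (Option (Option (ℕ × Bool)))) (l : ℕ × Bool) :
    col v ts (litV l) = colR (v l.1 == l.2) := by
  obtain ⟨x, b⟩ := l
  cases b
  · simp only [litV, Bool.false_eq_true, if_false, col_neg]
    cases v x <;> rfl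
  · simp only [litV, if_true, col_pos]
    cases v x <;> rfl

lemma col_step (v : ℕ → Bool) (ts : List (Option (Option (ℕ × Bool)))) (i : ℕ)
    (t : Option (Option (ℕ × Bool))) (h : ts[i]? = some t) :
    (ts.take (i + 1)).foldl (stepS v) false = stepS v ((ts.take i).foldl (stepS v) false) t := by
  rw [List.take_add_one, h]
  simp

theorem threeCol_of_sat (f : List (List (ℕ × Bool))) (h : CNFSat f) :
    ThreeColourable (threeCol f) := by
  obtain ⟨v, hv⟩ := h
  have hok := (OKs_toks v f false).2 hv
  refine ⟨col v (toks f), ?_⟩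
  intro e he
  unfold threeCol at he
  rw [List.mem_append, List.mem_flatMap] at he
  have c0 : col v (toks f) 0 = 0 := rfl
  have c1 : col v (toks f) 1 = 1 := rfl
  have c2 : col v (toks f) 2 = 2 := rfl
  rcases he with he | ⟨⟨o, i⟩, hmem, he⟩
  · simp only [List.mem_cons, List.not_mem_nil, or_false] at he
    rcases he with rfl | rfl | rfl
    · simp [c0, c1]
    · simp [c0, c2]
    · simp [c1, c2]
  · have hget : (toks f)[i]? = some o := List.mk_mem_zipIdx_iff_getElem?.1 hmem
    have hst := col_step v (toks f) i o hget
    rcases o with _ | _ | l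
    · simp only [tokEdges, List.mem_cons, List.not_mem_nil, or_false] at he
      rcases he with rfl | rfl
      · simp only [col_R, hst, c0, stepS]; decide
      · simp only [col_R, hst, c2, stepS]; decide
    · simp only [tokEdges, List.mem_cons, List.not_mem_nil, or_false] at he
      subst he
      simp only [col_R, c1]
      rw [OKs_get v _ false i hok hget]
      decide
    · have htv : tokVal v ((toks f)[i]?) = (v l.1 == l.2) := by rw [hget]; rfl
      have hst' : ((toks f).take (i + 1)).foldl (stepS v) false =
        (((toks f).take i).foldl (stepS v) false || (v l.1 == l.2)) := hst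
      simp only [tokEdges, litEdges, List.mem_cons, List.not_mem_nil, or_false] at he
      rcases he with rfl | rfl | rfl | rfl | rfl | rfl | rfl | rfl | rfl <;>
        simp only [col_R, col_P, col_Q, col_lit, col_pos, col_neg, hst', htv, c2] <;>
        generalize ((toks f).take i).foldl (stepS v) false = a <;>
        generalize (v l.1 == l.2) = b <;>
        generalize v l.1 = w <;>
        revert a b w <;> decide

/-! ### From a colouring to an assignment -/

lemma fin3_cases {a b c x : Fin 3} (hab : a ≠ b) (hac : a ≠ c) (hbc : b ≠ c) :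
    x = a ∨ x = b ∨ x = c := by
  revert a b c x; decide

lemma OKs_of_col (c : ℕ → Fin 3) (h01 : c 0 ≠ c 1) (h02 : c 0 ≠ c 2) (h12 : c 1 ≠ c 2)
    (ts : List (Option (Option (ℕ × Bool)))) :
    ∀ (n : ℕ) (s : Bool), (∀ p ∈ ts.zipIdx n, ∀ e ∈ tokEdges p, c e.1 ≠ c e.2) →
      (s = false → c (9 * n + 11) = c 1) → OKs (fun x => decide (c (3 * x + 3) = c 0)) s ts := by
  induction ts with
  | nil => intro n s _ _; trivial
  | cons t ts ih =>
    intro n s h hs
    rw [List.zipIdx_cons] at h
    have hhead := h (t, n) List.mem_cons_self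
    have htail : ∀ p ∈ ts.zipIdx (n + 1), ∀ e ∈ tokEdges p, c e.1 ≠ c e.2 :=
      fun p hp => h p (List.mem_cons_of_mem _ hp)
    rw [OKs]
    rcases t with _ | _ | l
    · refine ⟨by simp, ih (n + 1) _ htail ?_⟩
      intro _
      have e1 : c (9 * (n + 1) + 11) ≠ c 0 := hhead (9 * (n + 1) + 11, 0) (by simp [tokEdges])
      have e2 : c (9 * (n + 1) + 11) ≠ c 2 := hhead (9 * (n + 1) + 11, 2) (by simp [tokEdges])
      rcases fin3_cases (x := c (9 * (n + 1) + 11)) h01 h02 h12 with e | e | e
      · exact absurd e e1
      · exact e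
      · exact absurd e e2
    · have e1 : c (9 * n + 11) ≠ c 1 := hhead (9 * n + 11, 1) (by simp [tokEdges])
      have hst : s = true := by
        cases s
        · exact absurd (hs rfl) e1
        · rfl
      refine ⟨fun _ => hst, ih (n + 1) _ htail ?_⟩
      intro hf
      rw [stepS, hst] at hf
      cases hf
    · refine ⟨by simp, ih (n + 1) _ htail ?_⟩
      intro hf
      simp only [stepS, Bool.or_eq_false_iff] at hf
      obtain ⟨hs0, hb⟩ := hf
      have eR := hs hs0
      have g : ∀ e ∈ litEdges l n, c e.1 ≠ c e.2 := hhead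
      have g1 : c (3 * l.1 + 3) ≠ c (3 * l.1 + 4) :=
        g (3 * l.1 + 3, 3 * l.1 + 4) (by simp [litEdges])
      have g2 : c (3 * l.1 + 3) ≠ c 2 := g (3 * l.1 + 3, 2) (by simp [litEdges])
      have g3 : c (3 * l.1 + 4) ≠ c 2 := g (3 * l.1 + 4, 2) (by simp [litEdges])
      have g4 : c (9 * n + 11) ≠ c (9 * n + 5) := g (9 * n + 11, 9 * n + 5) (by simp [litEdges])
      have g5 : c (litV l) ≠ c (9 * n + 8) := g (litV l, 9 * n + 8) (by simp [litEdges])
      have g6 : c (9 * n + 5) ≠ c (9 * n + 8) := g (9 * n + 5, 9 * n + 8) (by simp [litEdges])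
      have g7 : c (9 * n + 5) ≠ c (9 * (n + 1) + 11) :=
        g (9 * n + 5, 9 * (n + 1) + 11) (by simp [litEdges])
      have g8 : c (9 * n + 8) ≠ c (9 * (n + 1) + 11) :=
        g (9 * n + 8, 9 * (n + 1) + 11) (by simp [litEdges])
      have g9 : c (9 * (n + 1) + 11) ≠ c 2 := g (9 * (n + 1) + 11, 2) (by simp [litEdges])
      have hlit : c (litV l) = c 1 := by
        obtain ⟨x, b⟩ := l
        cases b
        · -- negative literal
          simp only [beq_eq_false_iff_ne, ne_eq, decide_eq_false_iff_not, not_not] at hb
          simp only [litV, Bool.false_eq_true, if_false]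
          rcases fin3_cases (x := c (3 * x + 4)) h01 h02 h12 with e | e | e
          · exact absurd (hb.trans e.symm) g1
          · exact e
          · exact absurd e g3
        · simp only [beq_eq_false_iff_ne, ne_eq, decide_eq_true_eq] at hb
          simp only [litV, if_true]
          rcases fin3_cases (x := c (3 * x + 3)) h01 h02 h12 with e | e | e
          · exact absurd e hb
          · exact e
          · exact absurd e g2
      rw [hlit] at g5
      rw [eR] at g4
      generalize c (9 * n + 5) = p at *
      generalize c (9 * n + 8) = q at *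
      generalize c (9 * (n + 1) + 11) = r at *
      generalize c 0 = a0 at *
      generalize c 1 = a1 at *
      generalize c 2 = a2 at *
      clear hb hhead htail h g ih g1 g2 g3 hlit hs eR
      revert a0 a1 a2 p q r
      decide

theorem sat_of_threeCol (f : List (List (ℕ × Bool))) (h : ThreeColourable (threeCol f)) :
    CNFSat f := by
  obtain ⟨c, hc⟩ := h
  have h01 : c 0 ≠ c 1 := hc (0, 1) (by simp [threeCol])
  have h02 : c 0 ≠ c 2 := hc (0, 2) (by simp [threeCol])
  have h12 : c 1 ≠ c 2 := hc (1, 2) (by simp [threeCol])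
  refine ⟨fun x => decide (c (3 * x + 3) = c 0), ?_⟩
  have hok : OKs (fun x => decide (c (3 * x + 3) = c 0)) true (toks f) := by
    refine OKs_of_col c h01 h02 h12 (toks f) 0 true ?_ (by simp)
    intro p hp e he
    refine hc e ?_
    unfold threeCol
    rw [List.mem_append, List.mem_flatMap]
    exact Or.inr ⟨p, hp, he⟩
  exact (OKs_toks _ f true).1 hok

/-- The reduction is correct. -/
theorem threeCol_iff (f : List (List (ℕ × Bool))) :
    CNFSat f ↔ ThreeColourable (threeCol f) :=
  ⟨threeCol_of_sat f, sat_of_threeCol f⟩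

/-! ### The reduction is polynomial time -/

lemma PT_clauseToks : PT clauseToks := by
  have h := PT.cons (f := fun _ : List (ℕ × Bool) => (none : Option (Option (ℕ × Bool))))
    (g := fun cl => cl.map (fun l => some (some l)) ++ [some none]) (PT.const _)
    (PT.append (PT.map (f := fun (_ : List (ℕ × Bool)) (l : ℕ × Bool) => some (some l))
      (by fun_prop) PT.id) (PT.const _))
  exact h

lemma PT_toks : PT toks :=
  PT.flatMap (f := fun (_ : List (List (ℕ × Bool))) cl => clauseToks cl)
    (PT.comp PT_clauseToks (by fun_prop)) PT.id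

lemma PT_litV {α : Type*} [Enc α] {f : α → ℕ × Bool} (hf : PT f) : PT fun a => litV (f a) :=
  PT.ite (p := fun a => (f a).2 = true) (PT.decide_eq (by fun_prop) (by fun_prop)) (by fun_prop)
    (by fun_prop)

lemma PT_litEdges : PT fun p : (ℕ × Bool) × ℕ => litEdges p.1 p.2 := by
  have := PT_litV (f := fun p : (ℕ × Bool) × ℕ => p.1) (by fun_prop)
  unfold litEdges
  fun_prop

lemma PT_tokEdges : PT tokEdges := by
  have h1 : PT fun q : (Option (Option (ℕ × Bool)) × ℕ) × (Option (ℕ × Bool)) =>
      (match q.2 with
        | none => [(9 * q.1.2 + 11, 1)]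
        | some l => litEdges l q.1.2) := by
    refine (PT.optionCases (o := fun q : (Option (Option (ℕ × Bool)) × ℕ) × (Option (ℕ × Bool)) => q.2)
      (f := fun q : (Option (Option (ℕ × Bool)) × ℕ) × (Option (ℕ × Bool)) =>
        [(9 * q.1.2 + 11, 1)])
      (g := fun (q : (Option (Option (ℕ × Bool)) × ℕ) × (Option (ℕ × Bool))) l =>
        litEdges l q.1.2)
      (by fun_prop) (by fun_prop)
      (PT.comp (f := fun p : ((Option (Option (ℕ × Bool)) × ℕ) × (Option (ℕ × Bool))) × (ℕ × Bool)
        => (p.2, p.1.1.2)) PT_litEdges (by fun_prop))).congr ?_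
    rintro ⟨⟨_, _⟩, _ | _⟩ <;> rfl
  have h2 := PT.optionCases (o := fun p : Option (Option (ℕ × Bool)) × ℕ => p.1)
    (f := fun p : Option (Option (ℕ × Bool)) × ℕ =>
      [(9 * (p.2 + 1) + 11, 0), (9 * (p.2 + 1) + 11, 2)])
    (g := fun (p : Option (Option (ℕ × Bool)) × ℕ) o =>
      (match o with
        | none => [(9 * p.2 + 11, 1)]
        | some l => litEdges l p.2)) (by fun_prop) (by fun_prop) h1
  refine h2.congr ?_
  rintro ⟨_ | _ | l, i⟩ <;> rfl

/-- The reduction is polynomial time. -/
theorem PT_threeCol : PT threeCol := by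
  refine PT.append (PT.const _) ?_
  exact PT.flatMap (f := fun (_ : List (List (ℕ × Bool))) p => tokEdges p)
    (PT.comp PT_tokEdges (by fun_prop)) (PT.zipIdx PT_toks)

end Pool.Agent.Lib.CookLevin
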